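import Pool.Agent.U710.XP.B

set_option autoImplicit false

/-! From the number of the digits to the logarithm, in asymptotic formulas. -/

namespace Pool.Agent.U710.XP

open Finset Filter Topology
open Pool.Agent.U710.LE

theorem conv (E E' G ε : ℝ) (hE : E ≤ E') (hε : 0 < ε) (hE' : E' ≤ (1 + ε / 2) * E)
    (h : |G - E| ≤ ε / 2 * E) : |G - E'| ≤ ε * E' := by
  rw [abs_le] at h ⊢
  constructor
  · nlinarith
  · nlinarith

/-- the scale: from `log N`, `N` the size of the values, to the number of the digits -/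
theorem scales2 (J C r : ℕ) (ε : ℝ) (hε : 0 < ε) : ∃ N₀ : ℕ, ∀ N : ℕ, N₀ ≤ N →
    4 ≤ N ∧ 1 ≤ Real.log N ∧ Real.log N ≤ dg N ∧ Real.log (dg N) ≤ 2 * Real.log (Real.log N) ∧
    Real.log (Real.log N) ≤ Real.log (dg N) ∧
    (∀ P V : ℝ, 0 ≤ P → 0 < V → ∀ G : ℝ, |G - P / (V * (dg N * Real.log 2)) ^ r| ≤ ε / 2 * (P / (V * (dg N * Real.log 2)) ^ r) →
      |G - P / (V * Real.log N) ^ r| ≤ ε * (P / (V * Real.log N) ^ r)) ∧
    (∀ h : ℕ, (h : ℝ) ≤ Real.log N ^ J → h ≤ dg N ^ J) ∧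
    (∀ X : ℕ, (N : ℝ) ≤ X * Real.log N ^ C → 2 ^ dg N ≤ X * dg N ^ (C + 1)) ∧
    (∀ X : ℕ, (X : ℝ) ≤ N * Real.log N ^ C → X ≤ 2 ^ dg N * dg N ^ (C + 1)) := by
  have hlim : Tendsto (fun L : ℝ => (1 + 1 / L) ^ r) atTop (𝓝 1) := by
    have h1 : Tendsto (fun L : ℝ => 1 + 1 / L) atTop (𝓝 (1 + 0)) :=
      tendsto_const_nhds.add (tendsto_const_nhds.div_atTop tendsto_id)
    have h2 := h1.pow r
    simpa using h2
  obtain ⟨N₁, hN₁⟩ := eventually_atTop.1
    ((Real.tendsto_log_atTop.comp (tendsto_natCast_atTop_atTop (R := ℝ))).eventually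
      ((eventually_ge_atTop (3 : ℝ)).and (hlim.eventually (ge_mem_nhds (show (1 : ℝ) < 1 + ε / 2 by linarith)))))
  refine ⟨N₁ + 4, fun N hN => ?_⟩
  obtain ⟨b2, b3⟩ := hN₁ N (by omega)
  simp only [Function.comp_apply] at b2 b3
  have hN4 : 4 ≤ N := by omega
  have c1 := log_le_dg N (by omega)
  have c2 := dg_le_log N (by omega)
  obtain ⟨L, hL⟩ : ∃ L, L = Real.log N := ⟨_, rfl⟩
  rw [← hL] at b2 b3 c1 c2 ⊢
  obtain ⟨d, hd⟩ : ∃ d, d = dg N := ⟨_, rfl⟩
  have hdl := dg_log N hN4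
  rw [← hd] at c1 c2 hdl ⊢
  rw [← hL] at hdl
  have hL0 : 0 < L := by linarith
  have hd1 : (1 : ℝ) ≤ d := by linarith
  have hd0 : (0 : ℝ) < d := by linarith
  have hd2 : 2 ≤ d := by
    have : (2 : ℝ) ≤ d := by linarith
    exact_mod_cast this
  refine ⟨hN4, by linarith, c1, ?_, Real.log_le_log hL0 c1, ?_, fun h hh => ?_, fun X hX => ?_, fun X hX => ?_⟩
  · have h1 : (d : ℝ) ≤ L ^ 2 := by nlinarith
    have h2 := Real.log_le_log hd0 h1
    rwa [Real.log_pow] at h2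
  · intro P V hP hV G hG
    have hlog2 : 0 < Real.log 2 := Real.log_pos (by norm_num)
    have hT0 : 0 < (d : ℝ) * Real.log 2 := by positivity
    have h1 : (V * L) ^ r ≤ (V * (d * Real.log 2)) ^ r :=
      pow_le_pow_left₀ (by positivity) (mul_le_mul_of_nonneg_left hdl.1 hV.le) r
    have h2 : (V * (d * Real.log 2)) ^ r ≤ (1 + ε / 2) * (V * L) ^ r := by
      have h3 : V * (d * Real.log 2) ≤ (1 + 1 / L) * (V * L) := by
        have h4 : (1 + 1 / L) * (V * L) = V * (L + 1) := by field_simp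
        rw [h4]
        apply mul_le_mul_of_nonneg_left _ hV.le
        have : Real.log 2 ≤ 1 := by linarith [Real.log_two_lt_d9]
        linarith [hdl.2]
      calc (V * (d * Real.log 2)) ^ r ≤ ((1 + 1 / L) * (V * L)) ^ r := pow_le_pow_left₀ (by positivity) h3 r
        _ = (1 + 1 / L) ^ r * (V * L) ^ r := mul_pow _ _ _
        _ ≤ _ := mul_le_mul_of_nonneg_right b3 (by positivity)
    refine conv _ _ G ε ?_ hε ?_ hG
    · exact div_le_div_of_nonneg_left hP (by positivity) h1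
    · rw [← mul_div_assoc, div_le_div_iff₀ (by positivity) (by positivity)]
      calc P * (V * (d * Real.log 2)) ^ r ≤ P * ((1 + ε / 2) * (V * L) ^ r) := mul_le_mul_of_nonneg_left h2 hP
        _ = _ := by ring
  · have h1 : (h : ℝ) ≤ (d : ℝ) ^ J := hh.trans (pow_le_pow_left₀ hL0.le c1 J)
    exact_mod_cast h1
  · have h1 : (2 : ℝ) ^ d ≤ 2 * N := by
      rw [hd]
      exact_mod_cast dg_le N (by omega)
    have h2 : (2 : ℝ) ^ d ≤ X * (d : ℝ) ^ (C + 1) := by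
      calc (2 : ℝ) ^ d ≤ 2 * N := h1
        _ ≤ d * (X * L ^ C) := mul_le_mul (by exact_mod_cast hd2) hX (Nat.cast_nonneg _) hd0.le
        _ ≤ d * (X * (d : ℝ) ^ C) := by
            apply mul_le_mul_of_nonneg_left _ hd0.le
            exact mul_le_mul_of_nonneg_left (pow_le_pow_left₀ hL0.le c1 C) (Nat.cast_nonneg _)
        _ = X * (d : ℝ) ^ (C + 1) := by rw [pow_succ]; ring
    exact_mod_cast h2
  · have h1 : (N : ℝ) ≤ 2 ^ d := by
      rw [hd]
      exact_mod_cast (lt_dg N).le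
    have h2 : (X : ℝ) ≤ 2 ^ d * (d : ℝ) ^ (C + 1) := by
      calc (X : ℝ) ≤ N * L ^ C := hX
        _ ≤ 2 ^ d * (d : ℝ) ^ C := mul_le_mul h1 (pow_le_pow_left₀ hL0.le c1 C) (by positivity) (by positivity)
        _ ≤ 2 ^ d * (d : ℝ) ^ (C + 1) := mul_le_mul_of_nonneg_left (pow_le_pow_right₀ hd1 (by omega)) (by positivity)
    exact_mod_cast h2

end Pool.Agent.U710.XP
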