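import Pool.Agent.U710.LE.R
import Pool.Agent.U710.LE.P

set_option autoImplicit false

/-!
The class of the distributions of the values of functions which grow faster than any power, and the passage from
probabilities to numbers.
-/

namespace Pool.Agent.U710.XP

open Finset Filter Topology
open Pool.Agent.U710.LE

/-- the class of the distributions of the values in blocks, `log x ≤ k` -/
def LD (ζ σ : ℝ) (a k : ℕ) (p : ℕ → ℝ) : Prop :=
  ∃ (x h : ℕ) (f : ℝ → ℝ), Blk ζ σ a k x h f ∧ Real.log x ≤ k ∧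
    ∀ v, p v = (((Icc 1 h).filter (fun b => vl f x b = v)).card : ℝ) / h

theorem LD_LC {ζ σ : ℝ} {a k : ℕ} {p : ℕ → ℝ} (hp : LD ζ σ a k p) : LC ζ σ a k p := by
  obtain ⟨x, h, f, h1, _, h3⟩ := hp
  exact ⟨x, h, f, h1, h3⟩

/-- the distribution of the values for the arguments in `(y - h, y]` -/
noncomputable def dist (α β γ : ℝ) (y h : ℕ) (v : ℕ) : ℝ :=
  (((Icc 1 h).filter (fun b => vl (ef α β γ) (y - h) b = v)).card : ℝ) / h

open Classical in
/-- **The law**, on the blocks `(y - h, y]` with `y / (log y) ^ A ≤ h ≤ y / log y`: the distribution is in the class. -/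
theorem ef_dist (α β γ : ℝ) (hα : 0 < α) (hγ1 : 1 < γ) (hγ2 : γ < 3 / 2) (A : ℕ) :
    ∃ (ζ σ : ℝ), 0 < ζ ∧ ζ ≤ 1 ∧ 2 / 3 < σ ∧ ∀ k0 : ℕ, ∃ y0 : ℕ, ∀ y h : ℕ, y0 ≤ y →
      (y : ℝ) / Real.log y ^ A ≤ h → (h : ℝ) ≤ y / Real.log y →
      1 ≤ h ∧ h ≤ y ∧ 4 ≤ ⌊ef α β γ y⌋₊ ∧ k0 ≤ dg ⌊ef α β γ y⌋₊ ∧ Real.log y ≤ dg ⌊ef α β γ y⌋₊ ∧
        Blk ζ σ (A + 4) (dg ⌊ef α β γ y⌋₊) (y - h) h (ef α β γ) ∧
        LD ζ σ (A + 4) (dg ⌊ef α β γ y⌋₊) (dist α β γ y h) := by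
  obtain ⟨ζ, σ, C, y1, hζ, hζ1, hσ, hC, hB⟩ := ef_blk α β γ hα hγ1 hγ2 A
  refine ⟨ζ, σ, hζ, hζ1, hσ, fun k0 => ?_⟩
  obtain ⟨y2, hy2⟩ := eventually_atTop.1
    ((Real.tendsto_log_atTop.comp (tendsto_natCast_atTop_atTop (R := ℝ))).eventually
      ((eventually_ge_atTop ((k0 : ℝ) + 10)).and
      ((Pool.Agent.U710.NB.ev_const |β| γ (α / 2) (by linarith) (by positivity)).and
        (Pool.Agent.U710.NB.ev_rpow 1 γ (α / 2) hγ1 (by positivity)))))
  refine ⟨y1 + y2 + 2, fun y h hy hh1 hh2 => ?_⟩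
  obtain ⟨b1, b2, b3⟩ := hy2 y (by omega)
  simp only [Function.comp_apply] at b1 b2 b3
  rw [Real.rpow_one] at b3
  obtain ⟨c1, c2, c3, c4, c5⟩ := hB y h (by omega) hh1 hh2
  have hk0 : (0 : ℝ) ≤ k0 := Nat.cast_nonneg _
  have hpos : 10 ≤ α * Real.log y ^ γ + β := by
    have := neg_abs_le β
    linarith
  have hdg := kf_dg α β γ y (by linarith) (c5 y (by omega) le_rfl).2
  rw [← hdg] at c3 c4
  refine ⟨c1, c2, ?_, ?_, c3, c4, ?_⟩
  · apply Nat.le_floor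
    unfold ef
    have h1 := Real.add_one_le_exp (α * Real.log y ^ γ + β)
    push_cast
    linarith
  · have h1 : (k0 : ℝ) ≤ dg ⌊ef α β γ y⌋₊ := by linarith
    exact_mod_cast h1
  · refine ⟨y - h, h, ef α β γ, c4, le_trans ?_ c3, fun v => rfl⟩
    rcases Nat.eq_zero_or_pos (y - h) with h0 | h0
    · rw [h0, Nat.cast_zero, Real.log_zero]
      have : (1 : ℝ) ≤ y := by exact_mod_cast (by omega : 1 ≤ y)
      exact Real.log_nonneg this
    · exact Real.log_le_log (by exact_mod_cast h0) (by exact_mod_cast Nat.sub_le y h)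

open Classical in
/-- probabilities and numbers -/
theorem dist_sum (α β γ : ℝ) (ζ σ : ℝ) (a k y h : ℕ) (hhy : h ≤ y) (hB : Blk ζ σ a k (y - h) h (ef α β γ)) (g : ℕ → ℝ) :
    ∑ v ∈ range (2 ^ k), dist α β γ y h v * g v = (∑ n ∈ Ioc (y - h) y, g ⌊ef α β γ n⌋₊) / h := by
  have h2 := LC_mean (y - h) h (2 ^ k) (ef α β γ) (vl_lt ζ σ a k (y - h) h (ef α β γ) hB)
    (dist α β γ y h) (fun v => rfl) g
  rw [h2]
  congr 1
  refine sum_bij' (fun b _ => y - h + b) (fun n _ => n - (y - h)) ?_ ?_ ?_ ?_ ?_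
  · intro b hb
    rw [mem_Icc] at hb
    simp only [mem_Ioc]
    omega
  · intro n hn
    rw [mem_Ioc] at hn
    simp only [mem_Icc]
    omega
  · intro b _
    omega
  · intro n hn
    rw [mem_Ioc] at hn
    omega
  · intro b _
    rfl

open Classical in
/-- from probabilities to numbers -/
theorem dist_count (α β γ : ℝ) (ζ σ : ℝ) (a k y h : ℕ) (hhy : h ≤ y) (hB : Blk ζ σ a k (y - h) h (ef α β γ)) (Q : ℕ → Prop)
    (ε : ℝ) (hp : ∑ v ∈ range (2 ^ k), (if Q v then dist α β γ y h v else 0) ≤ ε) :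
    (((Ioc (y - h) y).filter (fun n : ℕ => Q ⌊ef α β γ n⌋₊)).card : ℝ) ≤ ε * h := by
  have hh0 : (0 : ℝ) < h := by exact_mod_cast hB.1
  have h1 := dist_sum α β γ ζ σ a k y h hhy hB (fun v => if Q v then 1 else 0)
  have h2 : ∑ v ∈ range (2 ^ k), dist α β γ y h v * (if Q v then 1 else 0) =
      ∑ v ∈ range (2 ^ k), (if Q v then dist α β γ y h v else 0) := by
    refine sum_congr rfl fun v _ => ?_
    split_ifs <;> simp
  rw [← h2, h1, div_le_iff₀ hh0] at hp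
  refine le_trans (le_of_eq ?_) hp
  rw [card_filter]
  push_cast
  rfl

/-- the size of the number of the digits -/
theorem dg_log (N : ℕ) (hN : 4 ≤ N) : Real.log N ≤ dg N * Real.log 2 ∧ dg N * Real.log 2 ≤ Real.log N + Real.log 2 := by
  have hN0 : (0 : ℝ) < N := by exact_mod_cast (by omega : 0 < N)
  constructor
  · have h1 := Real.log_le_log hN0 (show (N : ℝ) ≤ 2 ^ dg N by exact_mod_cast (lt_dg N).le)
    rwa [Real.log_pow] at h1
  · have h1 := Real.log_le_log (by positivity) (show (2 : ℝ) ^ dg N ≤ 2 * N by exact_mod_cast dg_le N (by omega))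
    rw [Real.log_pow, Real.log_mul (by norm_num) hN0.ne'] at h1
    linarith

end Pool.Agent.U710.XP
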