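import Pool.Agent.U710.XP.C
import Pool.Agent.U710.XP.B
import Pool.Agent.U710.LE.X

set_option autoImplicit false

/-!
The values of functions which grow faster than any power: the classes of distributions have the law for all the multiples
and quasi-exponentially small exponential sums at the rational numbers with small denominators.
-/

namespace Pool.Agent.U710.XP

open Finset Filter Topology
open Pool.Agent.U710.LE
open Pool.Agent.N625.PT (TCls)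
open Pool.Agent.H807R2.Dav (ee norm_ee ee_add)
open Pool.Agent.Y885 (TLaw Thin Spec)

theorem thin_E {b E E' Q k m : ℕ} {S : Finset ℕ} (hb : 1 ≤ b) (hE : 1 ≤ E) (hEE : E ≤ E') (h : Thin b E Q k m S) :
    Thin b E' Q k m S :=
  ⟨h.lt, fun i hi => le_trans (Nat.mul_le_mul_left _ (Nat.pow_le_pow_right hb (Nat.div_le_div_left hEE hE))) (h.bot i hi),
    fun j x hj => le_trans (Nat.mul_le_mul_left _ (Nat.pow_le_pow_right hb (Nat.div_le_div_left hEE hE))) (h.top j x hj),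
    le_trans (Nat.mul_le_mul_left _ (Nat.pow_le_pow_right hb (Nat.div_le_div_left hEE hE))) h.all⟩

theorem tlaw_E {b E E' c V K : ℕ} {ι : Type} {Ω : Finset ι} {p : ι → ℝ} {Y : ι → ℤ} (hb : 1 ≤ b) (hE : 1 ≤ E)
    (hEE : E ≤ E') (h : TLaw b E c V K Ω p Y) : TLaw b E' c V K Ω p Y :=
  ⟨h.nonneg, h.le_one, thin_E hb hE hEE h.thin⟩

theorem LD_tcls (ζ : ℝ) (hζ : 0 < ζ) (hζ1 : ζ ≤ 1) (a : ℕ) (σ : ℝ) (hσ : 2 / 3 < σ) (κ : ℤ) (hκ : κ ≠ 0) :
    TCls 2 κ (LD ζ σ a) := by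
  refine ⟨le_rfl, hκ, fun k p hp v => LC_nonneg ζ σ a k p (LD_LC hp) v, fun k p hp => LC_sum ζ σ a k p (LD_LC hp), 1,
    le_rfl, fun W V => ?_⟩
  obtain ⟨C₀, m₀, H⟩ := LC_tlaw ζ hζ hζ1 a σ hσ κ hκ (W + 1) V
  refine ⟨C₀, m₀ + 3, fun m hm e he h hh hF p hp cc => ?_⟩
  have hm3 : (3 : ℝ) ≤ m := by exact_mod_cast (by omega : 3 ≤ m)
  have h1 : (2 : ℝ) ^ e ≤ (m : ℝ) ^ W := by
    have e1 : (2 : ℝ) ^ e = Real.exp (e * Real.log 2) := by
      rw [← Real.log_pow, Real.exp_log (by positivity)]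
    have e2 : (m : ℝ) ^ W = Real.exp (W * Real.log m) := by
      rw [← Real.log_pow, Real.exp_log (by positivity)]
    rw [e1, e2]
    apply Real.exp_le_exp.2
    have h2 : Real.log 2 ≤ 1 := by linarith [Real.log_two_lt_d9]
    have h3 : (0 : ℝ) ≤ e := Nat.cast_nonneg _
    calc (e : ℝ) * Real.log 2 ≤ e * 1 := mul_le_mul_of_nonneg_left h2 h3
      _ ≤ W * Real.log m := by rw [mul_one]; exact he
  have h1n : 2 ^ e ≤ m ^ W := by exact_mod_cast h1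
  have h2 : h < 2 ^ (e + 1) := by
    rw [one_mul] at hF
    exact lt_of_lt_of_le (Nat.lt_pow_succ_log_self (by norm_num) h) (Nat.pow_le_pow_right (by norm_num) (by omega))
  have h3 : h ≤ m ^ (W + 1) := by
    calc h ≤ 2 ^ (e + 1) := h2.le
      _ = 2 ^ e * 2 := pow_succ _ _
      _ ≤ m ^ W * m := Nat.mul_le_mul h1n (by omega)
      _ = m ^ (W + 1) := (pow_succ _ _).symm
  have h4 : 2 ^ e ≤ m ^ (W + 1) := h1n.trans (Nat.pow_le_pow_right (by omega) (by omega))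
  exact tlaw_E (by norm_num) (by norm_num) (by norm_num) (H m (by omega) p (LD_LC hp) e h h4 hh h3 cc (m + e) rfl)

/-- growth: `4 (C (log k) ^ 2 + 1) + 40 ≤ k ^ ρ` -/
theorem grow (C ρ : ℝ) (hρ : 0 < ρ) : ∃ k₀ : ℕ, ∀ k : ℕ, k₀ ≤ k →
    4 * (C * Real.log k ^ 2 + 1) + 40 ≤ (k : ℝ) ^ ρ := by
  have h1 := (isLittleO_log_rpow_rpow_atTop (2 : ℝ) hρ).bound (show (0 : ℝ) < 1 / (8 * (|C| + 1)) by positivity)
  have h2 := (tendsto_rpow_atTop hρ).eventually (eventually_ge_atTop (88 : ℝ))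
  obtain ⟨k₀, hk₀⟩ := eventually_atTop.1 ((tendsto_natCast_atTop_atTop (R := ℝ)).eventually (h1.and (h2.and (eventually_ge_atTop (1 : ℝ)))))
  refine ⟨k₀, fun k hk => ?_⟩
  obtain ⟨g1, g2, g3⟩ := hk₀ k hk
  have hlog : 0 ≤ Real.log (k : ℝ) := Real.log_nonneg g3
  rw [Real.rpow_two, Real.norm_of_nonneg (by positivity), Real.norm_of_nonneg (by positivity)] at g1
  have g4 : |C| * Real.log k ^ 2 ≤ (k : ℝ) ^ ρ / 8 := by
    have h5 : (|C| + 1) * Real.log k ^ 2 ≤ (k : ℝ) ^ ρ / 8 := by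
      calc (|C| + 1) * Real.log k ^ 2 ≤ (|C| + 1) * (1 / (8 * (|C| + 1)) * (k : ℝ) ^ ρ) :=
            mul_le_mul_of_nonneg_left g1 (by positivity)
        _ = _ := by field_simp
    have h6 : 0 ≤ Real.log (k : ℝ) ^ 2 := by positivity
    nlinarith
  have g5 : C * Real.log k ^ 2 ≤ |C| * Real.log k ^ 2 := mul_le_mul_of_nonneg_right (le_abs_self C) (by positivity)
  linarith

theorem LD_rat (ζ : ℝ) (hζ : 0 < ζ) (hζ1 : ζ ≤ 1) (a : ℕ) (σ : ℝ) (hσ : 2 / 3 < σ) (q₀ : ℕ) : Rat 2 q₀ (LD ζ σ a) := by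
  intro D₁ D₂
  obtain ⟨ρ, hρ⟩ : ∃ ρ : ℝ, ρ = min (3 * σ - 2) (1 / 2) / 2 := ⟨_, rfl⟩
  have hm1 : 0 < min (3 * σ - 2) (1 / 2) := lt_min (by linarith) (by norm_num)
  have hm2 : min (3 * σ - 2) (1 / 2) ≤ 3 * σ - 2 := min_le_left _ _
  have hm3 : min (3 * σ - 2) (1 / 2) ≤ 1 / 2 := min_le_right _ _
  obtain ⟨k0, hk0⟩ := floor_big ζ hζ hζ1 a σ ρ hσ (by linarith) (by linarith) (by linarith) (by linarith)
  obtain ⟨k1, hk1⟩ := grow (|D₁| + 2 * |D₂|) ρ (by linarith)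
  refine ⟨k0 + k1 + 1, fun k hk p hp S hS m hm hprod t ht1 ht2 => ?_⟩
  have hg := hk1 k (by omega)
  obtain ⟨x, h, f, hB, hxk, hpv⟩ := hp
  obtain ⟨hh, hxh, hσx, hf, hb01⟩ := id hB
  have hh0 : (0 : ℝ) < h := by exact_mod_cast hh
  obtain ⟨d, hd⟩ : ∃ d : ℕ, d = ∏ q ∈ S, q := ⟨_, rfl⟩
  rw [← hd] at hprod ht2 ⊢
  have hd0 : (0 : ℝ) < d := by exact_mod_cast (by omega : 0 < d)
  obtain ⟨L, hL⟩ : ∃ L : ℝ, L = Real.log k ^ 2 := ⟨_, rfl⟩
  rw [← hL] at hm hg ⊢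
  have hL0 : 0 ≤ L := by rw [hL]; positivity
  obtain ⟨K, hK⟩ : ∃ K : ℕ, K = ⌈(|D₁| + 2 * |D₂|) * L⌉₊ := ⟨_, rfl⟩
  have hK1 : (|D₁| + 2 * |D₂|) * L ≤ K := by rw [hK]; exact Nat.le_ceil _
  have hK2 : (K : ℝ) < (|D₁| + 2 * |D₂|) * L + 1 := by rw [hK]; exact Nat.ceil_lt_add_one (by positivity)
  have hmK : m ≤ K := by
    have h1 : D₁ * L ≤ |D₁| * L := mul_le_mul_of_nonneg_right (le_abs_self _) hL0
    have h2 : 0 ≤ 2 * |D₂| * L := by positivity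
    have h3 : (m : ℝ) ≤ K := by linarith
    exact_mod_cast h3
  obtain ⟨α, hα⟩ : ∃ α : ℝ, α = (t : ℝ) / (d : ℝ) := ⟨_, rfl⟩
  have hdist : 1 / (d : ℝ) ≤ |α - round α| := by
    have h1 : |α - round α| = |(((t : ℤ) - round α * (d : ℤ) : ℤ) : ℝ)| / d := by
      rw [hα]
      push_cast
      rw [eq_div_iff hd0.ne', ← abs_of_pos hd0, ← abs_mul, abs_of_pos hd0]
      congr 1
      field_simp
    rw [h1]
    apply div_le_div_of_nonneg_right _ hd0.le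
    rw [← Int.cast_abs]
    have h2 : (1 : ℤ) ≤ |(t : ℤ) - round α * (d : ℤ)| := by
      apply Int.one_le_abs
      intro h3
      have h4 : (t : ℤ) = round α * d := by linarith
      have h5 : (d : ℤ) ∣ t := ⟨round α, by rw [h4]; ring⟩
      have h6 := Nat.le_of_dvd (by omega) (Int.natCast_dvd_natCast.1 h5)
      omega
    exact_mod_cast h2
  have hcond : (1 : ℝ) ≤ 8 * (|α - round α| * 2 ^ K) := by
    have h1 : (d : ℝ) ≤ 2 ^ K := by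
      have : d ≤ 2 ^ K := hprod.le.trans (Nat.pow_le_pow_right (by norm_num) hmK)
      exact_mod_cast this
    have h2 : (1 : ℝ) ≤ |α - round α| * 2 ^ K := by
      calc (1 : ℝ) = 1 / d * d := by field_simp
        _ ≤ |α - round α| * 2 ^ K := mul_le_mul hdist h1 hd0.le (abs_nonneg _)
    linarith
  have hmain := hk0 k (by omega) x h f hf hxh hσx hxk K (by linarith) α hcond
  have hsum : ∑ v ∈ range (2 ^ k), ((p v : ℝ) : ℂ) * ee (v * ((t : ℝ) / (d : ℝ))) =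
      (1 / (h : ℂ)) * ∑ b ∈ Icc 1 h, ee (α * (vl f x b : ℕ)) := by
    rw [← LC_sum' x h (2 ^ k) f (vl_lt ζ σ a k x h f hB) (fun v => ee (α * (v : ℕ))), mul_sum]
    refine sum_congr rfl fun v _ => ?_
    rw [hpv, nsmul_eq_mul, hα, mul_comm ((t : ℝ) / (d : ℝ)) (v : ℝ)]
    push_cast
    ring
  rw [hsum, norm_mul, norm_div, norm_one, Complex.norm_natCast]
  have he : ∑ b ∈ Icc 1 h, ee (α * (vl f x b : ℕ)) =
      ∑ b ∈ Icc 1 h, Pool.Agent.H469R2.NK.e (α * ⌊f ((x + b : ℕ) : ℝ)⌋) := by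
    refine sum_congr rfl fun b hb => ?_
    rw [Pool.Agent.N193.PS.ee_eq_e]
    have h2 : ((vl f x b : ℕ) : ℝ) = (⌊f ((x + b : ℕ) : ℝ)⌋ : ℤ) := by
      unfold vl
      exact natCast_floor_eq_intCast_floor (hb01 b hb).1
    rw [h2]
  rw [he]
  have h5 : 1 / (h : ℝ) * ‖∑ b ∈ Icc 1 h, Pool.Agent.H469R2.NK.e (α * ⌊f ((x + b : ℕ) : ℝ)⌋)‖ ≤ 1 / 2 ^ K := by
    calc _ ≤ 1 / (h : ℝ) * (h / 2 ^ K) := mul_le_mul_of_nonneg_left hmain (by positivity)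
      _ = _ := by field_simp
  refine h5.trans ?_
  have h6 : (1 : ℝ) / 2 ^ K = Real.exp (-(K * Real.log 2)) := by
    rw [Real.exp_neg, ← Real.log_pow, Real.exp_log (by positivity), one_div]
  rw [h6]
  apply Real.exp_le_exp.2
  have h7 : D₂ * L ≤ |D₂| * L := mul_le_mul_of_nonneg_right (le_abs_self _) hL0
  have h8 : 2 * |D₂| * L ≤ K := by
    have : 0 ≤ |D₁| * L := by positivity
    linarith
  have h9 : (0 : ℝ) ≤ K := Nat.cast_nonneg _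
  have h10 := Real.log_two_gt_d9
  nlinarith

theorem LD_scls (ζ : ℝ) (hζ : 0 < ζ) (hζ1 : ζ ≤ 1) (a : ℕ) (σ : ℝ) (hσ : 2 / 3 < σ) : SCls 2 0 (LD ζ σ a) :=
  ⟨le_rfl, fun k p hp v => LC_nonneg ζ σ a k p (LD_LC hp) v, fun k p hp => LC_sum ζ σ a k p (LD_LC hp),
    LD_rat ζ hζ hζ1 a σ hσ 0, fun κ hκ => LD_tcls ζ hζ hζ1 a σ hσ κ hκ⟩

end Pool.Agent.U710.XP
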