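import Pool.Agent.U710.XP.B

set_option autoImplicit false

/-! From probabilities to numbers, for vectors of values. -/

namespace Pool.Agent.U710.XP

open Finset Filter Topology
open Pool.Agent.U710.LE

open Classical in
theorem dist_eq (α β γ : ℝ) (ζ σ : ℝ) (a k y h : ℕ) (hhy : h ≤ y) (hB : Blk ζ σ a k (y - h) h (ef α β γ)) (v : ℕ)
    (hv : v < 2 ^ k) :
    dist α β γ y h v = (∑ n ∈ Ioc (y - h) y, if ⌊ef α β γ n⌋₊ = v then (1 : ℝ) else 0) / h := by
  have h1 := dist_sum α β γ ζ σ a k y h hhy hB (fun v' => if v' = v then 1 else 0)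
  rw [← h1]
  rw [sum_eq_single v]
  · simp
  · intro v' _ hne
    rw [if_neg hne, mul_zero]
  · intro hcon
    exact absurd (mem_range.2 hv) hcon

open Classical in
/-- from probabilities to numbers, for vectors -/
theorem dist_pi {r : ℕ} (α β γ : Fin r → ℝ) (ζ σ : Fin r → ℝ) (a : Fin r → ℕ) (k : ℕ) (y h : Fin r → ℕ)
    (hhy : ∀ j, h j ≤ y j) (hB : ∀ j, Blk (ζ j) (σ j) (a j) k (y j - h j) (h j) (ef (α j) (β j) (γ j)))
    (Q : (Fin r → ℕ) → Prop) (ε : ℝ)
    (hp : ∑ v ∈ Fintype.piFinset (fun _ : Fin r => range (2 ^ k)), (if Q v then ∏ j, dist (α j) (β j) (γ j) (y j) (h j) (v j) else 0) ≤ ε) :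
    (((Fintype.piFinset fun j => Ioc (y j - h j) (y j)).filter
      (fun n : Fin r → ℕ => Q (fun j => ⌊ef (α j) (β j) (γ j) (n j)⌋₊))).card : ℝ) ≤ ε * ∏ j, (h j : ℝ) := by
  have hh0 : 0 < ∏ j, (h j : ℝ) := prod_pos fun j _ => by exact_mod_cast (hB j).1
  have hlt : ∀ j, ∀ n ∈ Ioc (y j - h j) (y j), ⌊ef (α j) (β j) (γ j) n⌋₊ < 2 ^ k := by
    intro j n hn
    rw [mem_Ioc] at hn
    have h1 := vl_lt (ζ j) (σ j) (a j) k (y j - h j) (h j) (ef (α j) (β j) (γ j)) (hB j) (n - (y j - h j)) (by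
      rw [mem_Icc]
      omega)
    unfold vl at h1
    have h2 : y j - h j + (n - (y j - h j)) = n := by omega
    rw [h2] at h1
    exact h1
  have e1 : ∀ v ∈ Fintype.piFinset (fun _ : Fin r => range (2 ^ k)),
      (if Q v then ∏ j, dist (α j) (β j) (γ j) (y j) (h j) (v j) else 0) =
      (∑ n ∈ Fintype.piFinset (fun j => Ioc (y j - h j) (y j)),
        if (∀ j, ⌊ef (α j) (β j) (γ j) (n j)⌋₊ = v j) then (if Q v then (1 : ℝ) else 0) else 0) / ∏ j, (h j : ℝ) := by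
    intro v hv
    rw [Fintype.mem_piFinset] at hv
    by_cases hQ : Q v
    · rw [if_pos hQ]
      have e2 : ∀ j, dist (α j) (β j) (γ j) (y j) (h j) (v j) =
          (∑ n ∈ Ioc (y j - h j) (y j), if ⌊ef (α j) (β j) (γ j) n⌋₊ = v j then (1 : ℝ) else 0) / h j := fun j =>
        dist_eq (α j) (β j) (γ j) (ζ j) (σ j) (a j) k (y j) (h j) (hhy j) (hB j) (v j) (mem_range.1 (hv j))
      rw [prod_congr rfl fun j _ => e2 j, prod_div_distrib, prod_univ_sum]
      congr 1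
      refine sum_congr rfl fun n _ => ?_
      rw [prod_ite_zero, if_pos hQ]
      simp
    · rw [if_neg hQ]
      symm
      rw [sum_eq_zero, zero_div]
      intro n _
      split_ifs <;> rfl
  rw [sum_congr rfl e1, ← sum_div, div_le_iff₀ hh0, sum_comm] at hp
  refine le_trans (le_of_eq ?_) hp
  rw [card_filter]
  push_cast
  refine sum_congr rfl fun n hn => ?_
  rw [Fintype.mem_piFinset] at hn
  rw [sum_eq_single (fun j => ⌊ef (α j) (β j) (γ j) (n j)⌋₊)]
  · rw [if_pos (fun j => rfl)]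
  · intro v _ hne
    rw [if_neg]
    intro hcon
    exact hne (funext fun j => (hcon j).symm)
  · intro hcon
    exfalso
    apply hcon
    rw [Fintype.mem_piFinset]
    intro j
    rw [mem_range]
    exact hlt j (n j) (hn j)

theorem dg_large (α β γ : ℝ) (hα : 0 < α) (hγ1 : 1 < γ) (K : ℕ) : ∃ y₀ : ℕ, ∀ y : ℕ, y₀ ≤ y →
    4 ≤ ⌊ef α β γ y⌋₊ ∧ K ≤ dg ⌊ef α β γ y⌋₊ := by
  obtain ⟨y2, hy2⟩ := eventually_atTop.1
    ((Real.tendsto_log_atTop.comp (tendsto_natCast_atTop_atTop (R := ℝ))).eventually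
      ((eventually_ge_atTop ((2 ^ K : ℕ) + 10 : ℝ)).and
      ((Pool.Agent.U710.NB.ev_const |β| γ (α / 2) (by linarith) (by positivity)).and
        (Pool.Agent.U710.NB.ev_rpow 1 γ (α / 2) hγ1 (by positivity)))))
  refine ⟨y2, fun y hy => ?_⟩
  obtain ⟨b1, b2, b3⟩ := hy2 y hy
  simp only [Function.comp_apply] at b1 b2 b3
  rw [Real.rpow_one] at b3
  have hpos : (2 ^ K : ℕ) + 10 ≤ α * Real.log y ^ γ + β := by
    have := neg_abs_le β
    linarith
  have h1 : 2 ^ K + 4 ≤ ⌊ef α β γ y⌋₊ := by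
    apply Nat.le_floor
    unfold ef
    have h1 := Real.add_one_le_exp (α * Real.log y ^ γ + β)
    push_cast at hpos ⊢
    linarith
  have h0 : 1 ≤ 2 ^ K := Nat.one_le_two_pow
  refine ⟨by omega, ?_⟩
  unfold dg
  have h2 : K ≤ Nat.log 2 ⌊ef α β γ y⌋₊ := by
    apply Nat.le_log_of_pow_le (by norm_num)
    omega
  omega

end Pool.Agent.U710.XP
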