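import Pool.Agent.N625.PT.F

set_option autoImplicit false

/-! Classes of distributions of random integers with the law for all the multiples and with quasi-exponentially small
exponential sums at the rational numbers with small denominators. -/

namespace Pool.Agent.U710.XP
open Finset
open Pool.Agent.N625.PT
open Pool.Agent.H807R2.Dav (ee)

/-- the exponential sums are at most `exp (- D₂ (log k) ^ 2)` at the rational numbers whose denominators are at most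
`2 ^ (D₁ (log k) ^ 2)` and have only prime factors above `q₀` -/
def Rat (b q₀ : ℕ) (C : ℕ → (ℕ → ℝ) → Prop) : Prop :=
  ∀ D₁ D₂ : ℝ, ∃ k₀ : ℕ, ∀ k : ℕ, k₀ ≤ k → ∀ p, C k p → ∀ S : Finset ℕ, (∀ q ∈ S, q.Prime ∧ q₀ < q) → ∀ m : ℕ,
    (m : ℝ) ≤ D₁ * Real.log k ^ 2 → ∏ q ∈ S, q < 2 ^ m → ∀ a : ℕ, 1 ≤ a → a < ∏ q ∈ S, q →
    ‖∑ v ∈ range (b ^ k), (p v : ℂ) * ee (v * ((a : ℝ) / ((∏ q ∈ S, q : ℕ) : ℝ)))‖ ≤ Real.exp (-(D₂ * Real.log k ^ 2))

/-- classes of distributions with the law for all the multiples and with small exponential sums at the rational numbers -/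
structure SCls (b q₀ : ℕ) (C : ℕ → (ℕ → ℝ) → Prop) : Prop where
  two : 2 ≤ b
  nonneg : ∀ k p, C k p → ∀ v, 0 ≤ p v
  sum : ∀ k p, C k p → ∑ v ∈ range (b ^ k), p v = 1
  rat : Rat b q₀ C
  tcls : ∀ κ : ℤ, κ ≠ 0 → TCls b κ C

lemma SCls.mono {b q₀ q₁ : ℕ} {C : ℕ → (ℕ → ℝ) → Prop} (h : SCls b q₀ C) (hq : q₀ ≤ q₁) : SCls b q₁ C := by
  refine ⟨h.two, h.nonneg, h.sum, ?_, h.tcls⟩
  intro D₁ D₂
  obtain ⟨k₀, h1⟩ := h.rat D₁ D₂
  exact ⟨k₀, fun k hk p hp S hS => h1 k hk p hp S (fun q hqS => ⟨(hS q hqS).1, by have := (hS q hqS).2; omega⟩)⟩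

end Pool.Agent.U710.XP
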