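import Pool.Agent.U710.XP.E
import Pool.Agent.N625.PT.X7

set_option autoImplicit false

/-! Random integers given by digits with exponential decay of the characters: dense sets of primes. -/

namespace Pool.Agent.U710.XP
open Finset
open Pool.Agent.N625.PT
open Pool.Agent.Y885 (TLaw)
open Pool.Agent.H373R2.T7 (pz mem_pz Vz Vz_pos Vz_le_one ev_L' lamI lamzI lamz)
open Pool.Agent.Y877.SX (mid Vm mem_mid Vm_pos Vz_split primorial_le_log)
open Pool.Agent.H373R2.T7 (pz mem_pz Vz Vz_pos Vz_le_one ev_L')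

set_option maxHeartbeats 4000000 in
open Classical in
/-- random multiples of a small primorial: sums and differences with the elements of an arbitrary dense set of primes -/
theorem dense_law (b q₀ : ℕ) (hb : 2 ≤ b) (Cl : ℕ → (ℕ → ℝ) → Prop) (hC : SCls b q₀ Cl) (κ : ℤ) (hκ : κ ≠ 0)
    (B J A C : ℕ) (ε : ℝ) (hε : 0 < ε) (hε1 : ε ≤ 1) : ∃ K₀ : ℕ, ∀ K₁ : ℕ, ∃ k₀ : ℕ, ∀ k : ℕ, k₀ ≤ k →
    ∀ p, Cl k p → ∀ y : ℕ, K₀ * Real.log k ≤ y → y ≤ K₁ * Real.log k → ∀ c : ℤ, |c| ≤ B * (b : ℤ) ^ k →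
    ∀ h : ℕ, 1 ≤ h → h ≤ k ^ J → ∀ X : ℕ, b ^ k ≤ X * k ^ C → X ≤ b ^ k * k ^ C →
    ∀ S : Finset ℕ, S ⊆ Icc 1 X → (∀ s ∈ S, s.Prime) → (X : ℝ) ≤ S.card * (k : ℝ) ^ A → ∀ σ : ℤ, (σ = 1 ∨ σ = -1) →
    ∑ v ∈ range (b ^ k), (if (∀ s ∈ S, 0 < ((primorial y * h : ℕ) : ℤ) * (c + κ * (v : ℕ)) + σ * (s : ℕ)) ∧
      ((S.filter (fun s => (((primorial y * h : ℕ) : ℤ) * (c + κ * (v : ℕ)) + σ * (s : ℕ)).toNat.Prime)).card : ℝ) <
      (1 - ε) * (S.card / (Vz y * (k * Real.log b))) then p v else 0) ≤ ε := by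
  obtain ⟨Fκ, hF1, hlawF⟩ := (hC.tcls κ hκ).law
  obtain ⟨δ, hδ⟩ : ∃ δ, δ = ε / 8 := ⟨_, rfl⟩
  have hδ0 : 0 < δ := by rw [hδ]; positivity
  have hδ8 : δ ≤ 1 / 8 := by rw [hδ]; linarith
  obtain ⟨K0, hK01, hrough⟩ := rough_law b q₀ hb Cl hC (A + 1) δ δ hδ0 hδ0
  refine ⟨K0, fun K₁ => ?_⟩
  obtain ⟨J₁, hJ₁⟩ : ∃ J₁, J₁ = J + 2 * K₁ := ⟨_, rfl⟩
  obtain ⟨J₂, hJ₂⟩ : ∃ J₂, J₂ = J₁ + C := ⟨_, rfl⟩
  obtain ⟨e₀, he₀⟩ : ∃ e₀, e₀ = Fκ + B + κ.natAbs + 4 := ⟨_, rfl⟩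
  obtain ⟨W, hW⟩ : ∃ W, W = 3 * J₂ + e₀ := ⟨_, rfl⟩
  obtain ⟨U, hU⟩ : ∃ U, U = J₂ + A + C + 1 := ⟨_, rfl⟩
  obtain ⟨cT, m₀, hlaw⟩ := hlawF W (2 * U + 6)
  obtain ⟨B', hB'⟩ := tl_sgn b 15 cT hb (by norm_num) U
  obtain ⟨k1, hk1⟩ := hB' (B' + 2)
  obtain ⟨k2, hk2⟩ := hrough (2 * (B' + 2))
  obtain ⟨w, hw⟩ : ∃ w, w = 2 * (J₂ + A + C + 3) + A + C + 2 * (B' + 2) + 10 := ⟨_, rfl⟩
  obtain ⟨k3, hk3⟩ := pow_le_pow_digits b hb w
  obtain ⟨Γ, hΓ⟩ : ∃ Γ : ℝ, Γ = (b : ℝ) ^ (J₂ + e₀) := ⟨_, rfl⟩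
  obtain ⟨k4, hk4⟩ := exists_nat_ge (8 * Γ / δ ^ 2)
  obtain ⟨k5, hk5⟩ := ev_L' (max 1 (κ.natAbs + 1))
  obtain ⟨k6, hk6⟩ := ev4 (max (2 * (K₁ : ℝ)) (W / δ))
  obtain ⟨k7, hk7⟩ := exists_nat_ge ((1 + W) * Real.log b)
  refine ⟨max (max (max m₀ k1) (max k2 k3)) (max (max k4 k5) (max (max k6 k7) 3)), fun k hk p hp y hy1 hy2 c hc h hh1 hhJ X hX1 hX2 S hS hSp hSA σ hσ => ?_⟩
  have b1 : m₀ ≤ k := by omega
  have b2 : k1 ≤ k := by omega
  have b3 : k2 ≤ k := by omega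
  have b4 := hk3 k (by omega)
  have b5 := hk5 k (by omega)
  obtain ⟨b6, b6'⟩ := hk6 k (by omega)
  have b7 : (1 + W) * Real.log b ≤ k := hk7.trans (by exact_mod_cast (by omega : k7 ≤ k))
  have b8 : 8 * Γ / δ ^ 2 ≤ k := hk4.trans (by exact_mod_cast (by omega : k4 ≤ k))
  have b9 : 3 ≤ k := by omega
  have hbr : (2 : ℝ) ≤ b := by exact_mod_cast hb
  have hb0 : (0 : ℝ) < b := by linarith
  have hkr : (3 : ℝ) ≤ k := by exact_mod_cast b9
  have hk0 : (0 : ℝ) < k := by linarith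
  have hk1r : (1 : ℝ) ≤ k := by linarith
  obtain ⟨lk, hlk⟩ : ∃ lk, lk = Real.log k := ⟨_, rfl⟩
  rw [← hlk] at hy1 hy2 b5 b6 b6'
  have hlkκ : (κ.natAbs : ℝ) + 1 ≤ lk := (le_max_right _ _).trans b5
  have hlogb : 0.69 < Real.log b := by
    have := Real.log_two_gt_d9
    have := Real.log_le_log (by norm_num) hbr
    linarith
  have hl4 : lk ≤ lk ^ 4 := le_self_pow₀ b6' (by norm_num)
  have hlk2 : 2 * K₁ * lk ≤ k := by
    refine le_trans ?_ b6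
    have g1 : 2 * (K₁ : ℝ) ≤ max (2 * (K₁ : ℝ)) (W / δ) := le_max_left _ _
    exact mul_le_mul g1 hl4 (by linarith) (le_trans (by positivity) g1)
  have hlkW : W * lk ≤ δ * k := by
    have g1 : (W : ℝ) / δ ≤ max (2 * (K₁ : ℝ)) (W / δ) := le_max_right _ _
    have g2 : (W : ℝ) / δ * lk ≤ k := le_trans (mul_le_mul g1 hl4 (by linarith) (le_trans (by positivity) g1)) b6
    have g3 := mul_le_mul_of_nonneg_left g2 hδ0.le
    refine le_trans (le_of_eq ?_) g3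
    field_simp
  -- the number of digits
  obtain ⟨e, he⟩ : ∃ e, e = ex b J₂ e₀ k := ⟨_, rfl⟩
  obtain ⟨K, hK⟩ : ∃ K, K = k + e := ⟨_, rfl⟩
  have heW : (e : ℝ) ≤ W * lk := by
    rw [he, hW, hlk]
    exact ex_le b J₂ e₀ hb k b9
  have hKk : k ≤ K := by omega
  have hKr : (K : ℝ) ≤ (1 + δ) * k := by
    rw [hK]
    push_cast
    linarith
  have hK1 : (1 : ℝ) ≤ K := by exact_mod_cast (by omega : 1 ≤ K)
  have hlogK : Real.log ((b ^ K : ℕ) : ℝ) = K * Real.log b := by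
    push_cast
    rw [Real.log_pow]
  have hlogK1 : 2 ≤ Real.log ((b ^ K : ℕ) : ℝ) := by
    rw [hlogK]
    have : (3 : ℝ) ≤ K := by exact_mod_cast (by omega : 3 ≤ K)
    nlinarith
  have hlogK2 : Real.log ((b ^ K : ℕ) : ℝ) ≤ (k : ℝ) ^ 2 := by
    rw [hlogK]
    have hlkk : lk ≤ k := by
      rw [hlk]
      exact (Real.log_le_sub_one_of_pos hk0).trans (by linarith)
    have g1 : (K : ℝ) ≤ (1 + W) * k := by
      rw [hK]
      push_cast
      have : (W : ℝ) * lk ≤ W * k := mul_le_mul_of_nonneg_left hlkk (Nat.cast_nonneg _)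
      linarith
    calc (K : ℝ) * Real.log b ≤ ((1 + W) * k) * Real.log b := mul_le_mul_of_nonneg_right g1 (by linarith)
      _ = ((1 + W) * Real.log b) * k := by ring
      _ ≤ k * k := mul_le_mul_of_nonneg_right b7 hk0.le
      _ = _ := (sq _).symm
  have hlogK3 : k * 0.69 ≤ Real.log ((b ^ K : ℕ) : ℝ) := by
    rw [hlogK]
    have : (k : ℝ) ≤ K := by exact_mod_cast hKk
    nlinarith
  have hlogK4 : Real.log ((b ^ K : ℕ) : ℝ) ≤ (1 + δ) * (k * Real.log b) := by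
    rw [hlogK]
    have := mul_le_mul_of_nonneg_right hKr (by linarith : 0 ≤ Real.log b)
    linarith
  obtain ⟨LK, hLK⟩ : ∃ LK, LK = Real.log ((b ^ K : ℕ) : ℝ) := ⟨_, rfl⟩
  rw [← hLK] at hlogK1 hlogK2 hlogK3 hlogK4
  -- z
  obtain ⟨z, hzd⟩ : ∃ z, z = ⌈LK ^ (B' + 1)⌉₊ := ⟨_, rfl⟩
  have hz1 : LK ^ (B' + 1) ≤ z := by rw [hzd]; exact Nat.le_ceil _
  have hz1' : LK ^ B' ≤ z := (pow_le_pow_right₀ (by linarith) (by omega)).trans hz1
  have hz2 : (z : ℝ) ≤ LK ^ (B' + 2) := by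
    have h1 : (z : ℝ) < LK ^ (B' + 1) + 1 := by rw [hzd]; exact Nat.ceil_lt_add_one (by positivity)
    have h2 : LK ^ (B' + 2) = LK ^ (B' + 1) * LK := pow_succ _ _
    have h3 : 1 ≤ LK ^ (B' + 1) := one_le_pow₀ (by linarith)
    have h4 : LK ^ (B' + 1) * 2 ≤ LK ^ (B' + 1) * LK := mul_le_mul_of_nonneg_left hlogK1 (by linarith)
    rw [h2]
    linarith
  have hz3 : (z : ℝ) ≤ (k : ℝ) ^ (2 * (B' + 2)) := by
    rw [pow_mul]
    exact hz2.trans (pow_le_pow_left₀ (by linarith) hlogK2 _)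
  have hzL : LK ≤ z := by
    have : LK ≤ LK ^ (B' + 1) := le_self_pow₀ (by linarith) (by omega)
    exact this.trans hz1
  have hyz : y ≤ z := by
    have : (y : ℝ) ≤ z := by linarith
    exact_mod_cast this
  have hyκ : κ.natAbs < y := by
    have h1 : (1 : ℝ) ≤ K0 := by exact_mod_cast hK01
    have h2 : 1 * lk ≤ K0 * lk := mul_le_mul_of_nonneg_right h1 (by linarith)
    have : (κ.natAbs : ℝ) < y := by linarith
    exact_mod_cast this
  -- the multiplier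
  obtain ⟨M, hM⟩ : ∃ M, M = primorial y := ⟨_, rfl⟩
  have hM1 : 1 ≤ M := by rw [hM]; exact primorial_pos y
  have hMk : M ≤ k ^ (2 * K₁) := by
    have : (M : ℝ) ≤ (k : ℝ) ^ (2 * K₁) := by
      rw [hM]
      apply primorial_le_log K₁ y (k : ℝ) (by linarith [Real.exp_one_lt_d9])
      rw [← hlk]
      exact hy2
    exact_mod_cast this
  rw [← hM]
  obtain ⟨h', hh'⟩ : ∃ h', h' = M * h := ⟨_, rfl⟩
  rw [← hh']
  have hh'1 : 1 ≤ h' := by rw [hh']; exact Nat.mul_pos hM1 hh1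
  have hh'J : h' ≤ k ^ J₁ := by
    rw [hh', hJ₁, Nat.add_comm, pow_add]
    exact Nat.mul_le_mul hMk hhJ
  -- the primes
  obtain ⟨P, hPd⟩ : ∃ P, P = (mid y z).filter (fun q : ℕ => ¬ (q : ℤ) ∣ (h' : ℤ) * κ) := ⟨_, rfl⟩
  have hP : P ⊆ mid y z := by rw [hPd]; exact filter_subset _ _
  have hPα : ∀ q ∈ P, ¬ (q : ℤ) ∣ (h' : ℤ) * κ := fun q hq => by
    rw [hPd, mem_filter] at hq
    exact hq.2
  have hPc : ∀ v : ℕ, ∀ q : ℕ, q.Prime → q ≤ z → q ∉ P → (q : ℤ) ∣ (h' : ℤ) * (c + κ * (v : ℕ)) := by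
    intro v q hq hqz hqP
    have : q ∣ h' := by
      by_cases hqy : y < q
      · have h1 : (q : ℤ) ∣ (h' : ℤ) * κ := by
          by_contra hcon
          apply hqP
          rw [hPd, mem_filter]
          exact ⟨mem_mid.2 ⟨hqy, hqz, hq⟩, hcon⟩
        rcases (Nat.prime_iff_prime_int.1 hq).dvd_or_dvd h1 with h2 | h2
        · exact_mod_cast h2
        · exfalso
          have h3 : q ∣ κ.natAbs := Int.natCast_dvd.1 h2
          have h4 := Nat.le_of_dvd (Int.natAbs_pos.2 hκ) h3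
          omega
      · rw [hh', hM]
        exact (hq.dvd_primorial_iff.2 (by omega)).mul_right _
    exact (by exact_mod_cast this : (q : ℤ) ∣ (h' : ℤ)).mul_right _
  -- sizes
  have hbk1 : (1 : ℝ) ≤ (b : ℝ) ^ k := one_le_pow₀ (by linarith)
  have hbk0 : (0 : ℝ) < (b : ℝ) ^ k := by linarith
  have hkw : (k : ℝ) ^ w ≤ (b : ℝ) ^ k := by exact_mod_cast b4
  have hX1r : (b : ℝ) ^ k ≤ X * (k : ℝ) ^ C := by exact_mod_cast hX1
  have hscard : (b : ℝ) ^ k ≤ S.card * (k : ℝ) ^ (A + C) := by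
    calc (b : ℝ) ^ k ≤ X * (k : ℝ) ^ C := hX1r
      _ ≤ (S.card * (k : ℝ) ^ A) * (k : ℝ) ^ C := mul_le_mul_of_nonneg_right hSA (by positivity)
      _ = _ := by rw [pow_add]; ring
  obtain ⟨S', hS'⟩ : ∃ S', S' = S.filter (fun s => z < s) := ⟨_, rfl⟩
  have hsmall : (S.card : ℝ) ≤ S'.card + (z + 1) := by
    have h1 : (S.filter (fun j => ¬ z < j)).card ≤ z + 1 := by
      have h2 : (S.filter (fun j => ¬ z < j)).card ≤ (range (z + 1)).card := by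
        apply card_le_card
        intro s hs
        rw [mem_filter] at hs
        rw [mem_range]
        omega
      rwa [card_range] at h2
    have h3 := card_filter_add_card_filter_not (s := S) (fun j => z < j)
    rw [← hS'] at h3
    have h4 : S.card ≤ S'.card + (z + 1) := by omega
    exact_mod_cast h4
  have hΓ1 : 1 ≤ Γ := by rw [hΓ]; exact one_le_pow₀ (by linarith)
  have hkδ : 8 * Γ ≤ δ ^ 2 * k := by
    rw [div_le_iff₀ (by positivity)] at b8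
    linarith
  have hδ2 : δ ^ 2 ≤ δ := by nlinarith
  have hkδ' : 8 * Γ ≤ δ * k := hkδ.trans (mul_le_mul_of_nonneg_right hδ2 hk0.le)
  have hSbig : (k : ℝ) ^ (2 * (B' + 2) + 9) ≤ S.card := by
    have h1 : (k : ℝ) ^ (2 * (B' + 2) + 9) * (k : ℝ) ^ (A + C) ≤ S.card * (k : ℝ) ^ (A + C) := by
      refine le_trans ?_ (hkw.trans hscard)
      rw [← pow_add]
      exact pow_le_pow_right₀ hk1r (by omega)
    exact le_of_mul_le_mul_right h1 (by positivity)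
  have hzS : (z : ℝ) + 1 ≤ δ * S.card := by
    have h1 : (1 : ℝ) ≤ (k : ℝ) ^ (2 * (B' + 2)) := one_le_pow₀ hk1r
    have h2 : (z : ℝ) + 1 ≤ 2 * (k : ℝ) ^ (2 * (B' + 2)) := by linarith
    have h3 : (k : ℝ) ^ (2 * (B' + 2)) * k ≤ S.card := by
      refine le_trans ?_ hSbig
      rw [← pow_succ]
      exact pow_le_pow_right₀ hk1r (by omega)
    have h4 : 2 ≤ δ * k := by linarith
    calc (z : ℝ) + 1 ≤ 2 * (k : ℝ) ^ (2 * (B' + 2)) := h2
      _ ≤ (δ * k) * (k : ℝ) ^ (2 * (B' + 2)) := mul_le_mul_of_nonneg_right h4 (by positivity)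
      _ = δ * ((k : ℝ) ^ (2 * (B' + 2)) * k) := by ring
      _ ≤ δ * S.card := mul_le_mul_of_nonneg_left h3 hδ0.le
  have hSS : (1 - δ) * S.card ≤ S'.card := by linarith
  have hSc0 : (0 : ℝ) ≤ S.card := Nat.cast_nonneg _
  have hS2 : (S.card : ℝ) ≤ 2 * S'.card := by
    have : 1 / 2 * (S.card : ℝ) ≤ (1 - δ) * S.card := mul_le_mul_of_nonneg_right (by linarith) hSc0
    linarith
  have hsub : S' ⊆ S := by rw [hS']; exact filter_subset _ _
  obtain ⟨m, hm⟩ : ∃ m : ℝ, m = S'.card := ⟨_, rfl⟩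
  have hmbig : (b : ℝ) ^ k ≤ 2 * m * (k : ℝ) ^ (A + C) := by
    rw [hm]
    exact hscard.trans (mul_le_mul_of_nonneg_right hS2 (by positivity))
  have hm5 : (k : ℝ) ^ 5 ≤ m := by
    have h1 : (k : ℝ) ^ 5 * 2 ≤ (k : ℝ) ^ (2 * (B' + 2) + 9) := by
      calc (k : ℝ) ^ 5 * 2 ≤ (k : ℝ) ^ 5 * k := mul_le_mul_of_nonneg_left (by linarith) (by positivity)
        _ = (k : ℝ) ^ 6 := by ring
        _ ≤ _ := pow_le_pow_right₀ hk1r (by omega)
    rw [hm]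
    linarith
  have hm0 : 0 < m := lt_of_lt_of_le (by positivity) hm5
  have hmA : (X : ℝ) ≤ m * (k : ℝ) ^ (A + 1) := by
    calc (X : ℝ) ≤ S.card * (k : ℝ) ^ A := hSA
      _ ≤ (2 * m) * (k : ℝ) ^ A := by rw [hm]; exact mul_le_mul_of_nonneg_right hS2 (by positivity)
      _ = m * ((k : ℝ) ^ A * 2) := by ring
      _ ≤ m * ((k : ℝ) ^ A * k) := by
          apply mul_le_mul_of_nonneg_left _ hm0.le
          exact mul_le_mul_of_nonneg_left (by linarith) (by positivity)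
      _ = _ := by rw [pow_succ]
  have hbK : ((b ^ K : ℕ) : ℝ) ≤ (b : ℝ) ^ k * ((k : ℝ) ^ J₂ * Γ) := by
    have g1 : (b : ℝ) ^ (Nat.log b k) ≤ k := by exact_mod_cast Nat.pow_log_le_self b (by omega)
    have e1 : ((b ^ K : ℕ) : ℝ) = (b : ℝ) ^ k * (((b : ℝ) ^ (Nat.log b k)) ^ J₂ * Γ) := by
      rw [hΓ, hK, he]
      unfold ex
      push_cast
      rw [← pow_mul, ← pow_add, ← pow_add]
      congr 1
      ring
    rw [e1]
    apply mul_le_mul_of_nonneg_left _ hbk0.le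
    apply mul_le_mul_of_nonneg_right _ (by linarith)
    exact pow_le_pow_left₀ (by positivity) g1 _
  -- values
  have hbK2 : ((B : ℤ) + κ.natAbs + 3) * ((b : ℤ) ^ k * (k : ℤ) ^ J₂) ≤ (b : ℤ) ^ K := by
    have g1 : k ^ J₂ ≤ b ^ (J₂ * (Nat.log b k + 1)) := pow_ex b J₂ hb k
    have g2 : B + κ.natAbs + 3 ≤ b ^ e₀ := by
      have : e₀ < b ^ e₀ := Nat.lt_pow_self (by omega)
      omega
    have g3 : (B + κ.natAbs + 3) * (b ^ k * k ^ J₂) ≤ b ^ K := by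
      calc (B + κ.natAbs + 3) * (b ^ k * k ^ J₂) ≤ b ^ e₀ * (b ^ k * b ^ (J₂ * (Nat.log b k + 1))) :=
            Nat.mul_le_mul g2 (Nat.mul_le_mul_left _ g1)
        _ = b ^ K := by
            rw [hK, he]
            unfold ex
            rw [← pow_add, ← pow_add]
            congr 1
            ring
    exact_mod_cast g3
  have hYX : ∀ v ∈ range (b ^ k), (X : ℤ) + |(h' : ℤ) * (c + κ * (v : ℕ))| + 1 < (b : ℤ) ^ K := by
    intro v hv
    rw [mem_range] at hv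
    refine lt_of_lt_of_le ?_ hbK2
    have g0 : (0 : ℤ) ≤ (v : ℤ) := Int.natCast_nonneg _
    have g1 : (v : ℤ) ≤ (b : ℤ) ^ k := by exact_mod_cast hv.le
    have g2 : |c + κ * (v : ℤ)| ≤ ((B : ℤ) + κ.natAbs) * (b : ℤ) ^ k := by
      have q1 := abs_add_le c (κ * (v : ℤ))
      have q3 : |κ * (v : ℤ)| ≤ (κ.natAbs : ℤ) * (b : ℤ) ^ k := by
        rw [abs_mul, Int.abs_eq_natAbs κ, abs_of_nonneg g0]
        exact mul_le_mul_of_nonneg_left g1 (Int.natCast_nonneg _)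
      linarith
    have g3 : (h' : ℤ) ≤ (k : ℤ) ^ J₂ := by
      have : h' ≤ k ^ J₂ := hh'J.trans (Nat.pow_le_pow_right (by omega) (by omega))
      exact_mod_cast this
    have g4 : |(h' : ℤ) * (c + κ * (v : ℕ))| ≤ (k : ℤ) ^ J₂ * (((B : ℤ) + κ.natAbs) * (b : ℤ) ^ k) := by
      rw [abs_mul, Nat.abs_cast]
      exact mul_le_mul g3 g2 (abs_nonneg _) (by positivity)
    have g5 : (X : ℤ) ≤ (b : ℤ) ^ k * (k : ℤ) ^ J₂ := by
      have : X ≤ b ^ k * k ^ J₂ := hX2.trans (Nat.mul_le_mul_left _ (Nat.pow_le_pow_right (by omega) (by omega)))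
      exact_mod_cast this
    have g6 : (1 : ℤ) ≤ (b : ℤ) ^ k * (k : ℤ) ^ J₂ := by
      have : 0 < b ^ k * k ^ J₂ := by positivity
      exact_mod_cast this
    nlinarith
  have hXK : (X : ℤ) + 1 < (b : ℤ) ^ K := by
    have h1 := hYX 0 (mem_range.2 (by positivity))
    have h2 := abs_nonneg ((h' : ℤ) * (c + κ * ((0 : ℕ) : ℕ)))
    linarith
  -- the law
  have hlawk := hlaw k b1 e (by rw [← hlk]; exact heW) h' hh'1 (by
    refine (log_ex b J₁ Fκ hb k h' hF1 hh'1 hh'J).trans ?_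
    rw [he, he₀]
    unfold ex
    have : J₁ * (Nat.log b k + 1) ≤ J₂ * (Nat.log b k + 1) := Nat.mul_le_mul_right _ (by omega)
    omega) p hp c
  rw [← hK] at hlawk
  have hT := hk1 K (by omega) z (by rw [← hLK]; exact hz1') (by rw [← hLK]; exact hz2) (range (b ^ k)) p _ hlawk X hYX hXK
    (fun n => if n ∈ S' then 1 else 0) (by
      intro n _
      split_ifs <;> norm_num) σ hσ
  have hR := hk2 k b3 p hp y z (by rw [← hlk]; exact hy1) hyz hz3 P hP X S' (hsub.trans hS) (by rw [← hm]; exact hmA)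
    (by rw [← hm]; exact hm5) ((h' : ℤ) * κ) (fun s => (h' : ℤ) * c + σ * (s : ℕ)) hPα (by
    intro s _ t _ q v h1 h2
    apply Dvd.dvd.mul_right
    apply dvd_dist
    have h3 := dvd_sub h1 h2
    have h4 : (h' : ℤ) * κ * (v : ℕ) + ((h' : ℤ) * c + σ * (s : ℕ)) - ((h' : ℤ) * κ * (v : ℕ) + ((h' : ℤ) * c + σ * (t : ℕ))) =
        σ * ((s : ℤ) - t) := by ring
    rw [h4] at h3
    rcases hσ with rfl | rfl
    · rwa [one_mul] at h3
    · rw [neg_one_mul] at h3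
      exact dvd_neg.1 h3)
  have hbKn : ((b ^ K : ℕ) : ℝ) / (K : ℝ) ^ U ≤ δ * (δ * m) := by
    have hKU : (k : ℝ) ^ U ≤ (K : ℝ) ^ U := pow_le_pow_left₀ hk0.le (by exact_mod_cast hKk) _
    rw [div_le_iff₀ (by positivity)]
    calc ((b ^ K : ℕ) : ℝ) ≤ (b : ℝ) ^ k * ((k : ℝ) ^ J₂ * Γ) := hbK
      _ ≤ (2 * m * (k : ℝ) ^ (A + C)) * ((k : ℝ) ^ J₂ * Γ) := mul_le_mul_of_nonneg_right hmbig (by positivity)
      _ = m * (k : ℝ) ^ (J₂ + A + C) * (2 * Γ) := by rw [add_assoc J₂, pow_add (k : ℝ) J₂]; ring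
      _ ≤ m * (k : ℝ) ^ (J₂ + A + C) * (δ ^ 2 * k) := by
          apply mul_le_mul_of_nonneg_left _ (by positivity)
          linarith
      _ = δ * (δ * m) * (k : ℝ) ^ U := by rw [hU, pow_succ]; ring
      _ ≤ _ := mul_le_mul_of_nonneg_left hKU (by positivity)
  have hpp : 2 * √((b ^ K : ℕ) : ℝ) * Real.log ((b ^ K : ℕ) : ℝ) ≤ δ * m := by
    rw [← hLK]
    have g1 : √((b ^ K : ℕ) : ℝ) ≤ √((b : ℝ) ^ k) * ((k : ℝ) ^ J₂ * Γ) := by
      have q1 : 1 ≤ (k : ℝ) ^ J₂ * Γ := one_le_mul_of_one_le_of_one_le (one_le_pow₀ hk1r) hΓ1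
      have q2 : √((b ^ K : ℕ) : ℝ) ≤ √((b : ℝ) ^ k * ((k : ℝ) ^ J₂ * Γ)) := Real.sqrt_le_sqrt hbK
      rw [Real.sqrt_mul hbk0.le] at q2
      have q3 : √((k : ℝ) ^ J₂ * Γ) ≤ (k : ℝ) ^ J₂ * Γ := by
        rw [Real.sqrt_le_left (by positivity)]
        exact le_self_pow₀ q1 (by norm_num)
      exact q2.trans (mul_le_mul_of_nonneg_left q3 (Real.sqrt_nonneg _))
    have g2 : (k : ℝ) ^ (J₂ + A + C + 3) ≤ √((b : ℝ) ^ k) := by
      apply Real.le_sqrt_of_sq_le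
      rw [← pow_mul]
      exact (pow_le_pow_right₀ hk1r (by omega)).trans hkw
    have hsq : √((b : ℝ) ^ k) * √((b : ℝ) ^ k) = (b : ℝ) ^ k := Real.mul_self_sqrt hbk0.le
    have hs0 : 0 ≤ √((b : ℝ) ^ k) := Real.sqrt_nonneg _
    -- the product
    have g3 : (2 * √((b ^ K : ℕ) : ℝ) * LK) * (2 * (k : ℝ) ^ (A + C)) ≤ δ * (b : ℝ) ^ k := by
      calc (2 * √((b ^ K : ℕ) : ℝ) * LK) * (2 * (k : ℝ) ^ (A + C))
          ≤ (2 * (√((b : ℝ) ^ k) * ((k : ℝ) ^ J₂ * Γ)) * (k : ℝ) ^ 2) * (2 * (k : ℝ) ^ (A + C)) := by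
            apply mul_le_mul_of_nonneg_right _ (by positivity)
            apply mul_le_mul _ hlogK2 (by linarith) (by positivity)
            exact mul_le_mul_of_nonneg_left g1 (by norm_num)
        _ = √((b : ℝ) ^ k) * ((k : ℝ) ^ (J₂ + A + C + 2) * (4 * Γ)) := by
            rw [show J₂ + A + C + 2 = J₂ + (A + C) + 2 by ring, pow_add (k : ℝ) (J₂ + (A + C)), pow_add (k : ℝ) J₂]
            ring
        _ ≤ √((b : ℝ) ^ k) * ((k : ℝ) ^ (J₂ + A + C + 2) * (δ * k)) := by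
            apply mul_le_mul_of_nonneg_left _ hs0
            apply mul_le_mul_of_nonneg_left _ (by positivity)
            linarith
        _ = δ * (√((b : ℝ) ^ k) * (k : ℝ) ^ (J₂ + A + C + 3)) := by
            rw [pow_succ (k : ℝ) (J₂ + A + C + 2)]
            ring
        _ ≤ δ * (√((b : ℝ) ^ k) * √((b : ℝ) ^ k)) := by
            apply mul_le_mul_of_nonneg_left _ hδ0.le
            exact mul_le_mul_of_nonneg_left g2 hs0
        _ = _ := by rw [hsq]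
    have g4 : (2 * √((b ^ K : ℕ) : ℝ) * LK) * (2 * (k : ℝ) ^ (A + C)) ≤ (δ * m) * (2 * (k : ℝ) ^ (A + C)) := by
      calc _ ≤ δ * (b : ℝ) ^ k := g3
        _ ≤ δ * (2 * m * (k : ℝ) ^ (A + C)) := mul_le_mul_of_nonneg_left hmbig hδ0.le
        _ = _ := by ring
    exact le_of_mul_le_mul_right g4 (by positivity)
  -- the bad events
  obtain ⟨Q1, hQ1⟩ : ∃ Q1 : ℕ → Prop, ∀ v, Q1 v ↔ ((S'.filter (fun s => ∀ q ∈ P, ¬ (q : ℤ) ∣ (h' : ℤ) * κ * (v : ℕ) +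
    ((h' : ℤ) * c + σ * (s : ℕ)))).card : ℝ) < (1 - δ) * (S'.card * VP P) := ⟨_, fun _ => Iff.rfl⟩
  obtain ⟨D, hD⟩ : ∃ D : ℕ → ℝ, ∀ v, D v = |∑ n ∈ Icc 1 X, (if n ∈ S' then (1 : ℝ) else 0) *
    (lamI ((h' : ℤ) * (c + κ * (v : ℕ)) + σ * (n : ℕ)) - lamzI z ((h' : ℤ) * (c + κ * (v : ℕ)) + σ * (n : ℕ)))| := ⟨_, fun _ => rfl⟩
  have s1 : ∑ v ∈ range (b ^ k), (if Q1 v then p v else 0) ≤ δ := by
    refine le_trans (le_of_eq ?_) hR
    apply sum_congr rfl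
    intro v _
    by_cases hq : Q1 v
    · rw [if_pos hq, if_pos ((hQ1 v).1 hq)]
    · rw [if_neg hq, if_neg (fun h => hq ((hQ1 v).2 h))]
  have s2 : ∑ v ∈ range (b ^ k), (if δ * m < D v then p v else 0) ≤ δ := by
    have h1 : (∑ v ∈ range (b ^ k), (if δ * m < D v then p v else 0)) * (δ * m) ≤ δ * (δ * m) := by
      refine le_trans ?_ (hT.trans hbKn)
      rw [sum_mul]
      apply sum_le_sum
      intro v _
      rw [← hD]
      have hD0 : 0 ≤ D v := by rw [hD]; exact abs_nonneg _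
      split_ifs with hv
      · exact mul_le_mul_of_nonneg_left hv.le ((hC.nonneg _ _ hp) v)
      · rw [zero_mul]
        exact mul_nonneg ((hC.nonneg _ _ hp) v) hD0
    exact le_of_mul_le_mul_right h1 (by positivity)
  have hle2 : δ + δ ≤ ε := by rw [hδ]; linarith
  refine le_trans ?_ (le_trans (add_le_add s1 s2) hle2)
  rw [← sum_add_distrib]
  apply sum_le_sum
  intro v hv
  have hpv := (hC.nonneg _ _ hp) v
  by_cases hq1 : Q1 v
  · rw [if_pos hq1]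
    have h1 : (if (∀ s ∈ S, 0 < (h' : ℤ) * (c + κ * (v : ℕ)) + σ * (s : ℕ)) ∧
      ((S.filter (fun s => ((h' : ℤ) * (c + κ * (v : ℕ)) + σ * (s : ℕ)).toNat.Prime)).card : ℝ) <
      (1 - ε) * (S.card / (Vz y * (k * Real.log b))) then p v else 0) ≤ p v := by
      split_ifs
      · exact le_rfl
      · exact hpv
    have h2 : 0 ≤ (if δ * m < D v then p v else 0) := by
      split_ifs
      · exact hpv
      · exact le_rfl
    linarith
  · by_cases hq2 : δ * m < D v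
    · rw [if_neg hq1, if_pos hq2, zero_add]
      split_ifs
      · exact le_rfl
      · exact hpv
    · rw [if_neg hq1, if_neg hq2, add_zero]
      rw [if_neg]
      rintro ⟨hpos, hfew⟩
      rw [hQ1] at hq1
      push Not at hq1 hq2
      rw [hD] at hq2
      have hform : ∀ s : ℕ, (h' : ℤ) * κ * (v : ℕ) + ((h' : ℤ) * c + σ * (s : ℕ)) = (h' : ℤ) * (c + κ * (v : ℕ)) + σ * (s : ℕ) := by
        intro s
        ring
      simp_rw [hform] at hq1
      have hasm := assemble X y z δ hδ0 hδ8 hyz P hP ((h' : ℤ) * (c + κ * (v : ℕ))) σ hσ S S' hS hSp hS' hSS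
        (hPc v) hpos (b ^ K) (Nat.one_le_pow _ _ (by omega)) (by
          intro s hs
          have q1 := hYX v hv
          have q2 := (mem_Icc.1 (hS hs)).2
          have q3 := le_abs_self ((h' : ℤ) * (c + κ * (v : ℕ)))
          have q4 : σ * (s : ℕ) ≤ X := by
            rcases hσ with rfl | rfl
            · rw [one_mul]; exact_mod_cast q2
            · rw [neg_one_mul]
              have : (0 : ℤ) ≤ (s : ℕ) := Int.natCast_nonneg _
              have : (0 : ℤ) ≤ (X : ℕ) := Int.natCast_nonneg _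
              linarith
          push_cast
          linarith) (k * Real.log b) (by
          have : 0 < Real.log b := by linarith
          positivity) (by rw [← hLK]; exact hlogK4) (by rw [← hm]; exact hpp) hq1 (by rw [← hm]; exact hq2)
      have he8 : 1 - 8 * δ = 1 - ε := by rw [hδ]; ring
      rw [he8] at hasm
      linarith

open Classical in
/-- sums with one summand in an arbitrary dense set of primes -/
theorem dense_sum (b q₀ : ℕ) (hb : 2 ≤ b) (Cl : ℕ → (ℕ → ℝ) → Prop) (hC : SCls b q₀ Cl) (κ : ℤ) (hκ : κ ≠ 0)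
    (B J A C : ℕ) (ε : ℝ) (hε : 0 < ε) (hε1 : ε ≤ 1) : ∃ K₀ : ℕ, ∀ K₁ : ℕ, ∃ k₀ : ℕ, ∀ k : ℕ, k₀ ≤ k →
    ∀ p, Cl k p → ∀ y : ℕ, K₀ * Real.log k ≤ y → y ≤ K₁ * Real.log k → ∀ c : ℤ, |c| ≤ B * (b : ℤ) ^ k →
    ∀ h : ℕ, 1 ≤ h → h ≤ k ^ J → ∀ X : ℕ, b ^ k ≤ X * k ^ C → X ≤ b ^ k * k ^ C →
    ∀ S : Finset ℕ, S ⊆ Icc 1 X → (∀ s ∈ S, s.Prime) → (X : ℝ) ≤ S.card * (k : ℝ) ^ A →
    ∑ v ∈ range (b ^ k), (if (X : ℤ) < ((primorial y * h : ℕ) : ℤ) * (c + κ * (v : ℕ)) ∧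
      ((S.filter (fun s => (((primorial y * h : ℕ) : ℤ) * (c + κ * (v : ℕ)) - (s : ℕ)).toNat.Prime)).card : ℝ) <
      (1 - ε) * (S.card / (Vz y * (k * Real.log b))) then p v else 0) ≤ ε := by
  obtain ⟨K₀, h0⟩ := dense_law b q₀ hb Cl hC κ hκ B J A C ε hε hε1
  refine ⟨K₀, fun K₁ => ?_⟩
  obtain ⟨k₀, h0⟩ := h0 K₁
  refine ⟨k₀, fun k hk p hp y hy1 hy2 c hc h hh1 hhJ X hX1 hX2 S hS hSp hSA => ?_⟩
  refine le_trans (sum_le_sum fun v _ => ?_) (h0 k hk p hp y hy1 hy2 c hc h hh1 hhJ X hX1 hX2 S hS hSp hSA (-1) (Or.inr rfl))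
  have hpv := (hC.nonneg _ _ hp) v
  by_cases hc : (X : ℤ) < ((primorial y * h : ℕ) : ℤ) * (c + κ * (v : ℕ)) ∧
      ((S.filter (fun s => (((primorial y * h : ℕ) : ℤ) * (c + κ * (v : ℕ)) - (s : ℕ)).toNat.Prime)).card : ℝ) <
      (1 - ε) * (S.card / (Vz y * (k * Real.log b)))
  · rw [if_pos hc, if_pos]
    obtain ⟨h1, h2⟩ := hc
    refine ⟨fun s hs => ?_, ?_⟩
    · have := (mem_Icc.1 (hS hs)).2
      have h3 : (s : ℤ) ≤ X := by exact_mod_cast this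
      rw [neg_one_mul]
      linarith
    · simp_rw [neg_one_mul, ← sub_eq_add_neg]
      exact h2
  · rw [if_neg hc]
    split_ifs
    · exact hpv
    · exact le_rfl

open Classical in
/-- shifts of the values of an injective function of the indices -/
theorem dense_shift (b q₀ : ℕ) (hb : 2 ≤ b) (Cl : ℕ → (ℕ → ℝ) → Prop) (hC : SCls b q₀ Cl) (κ : ℤ) (hκ : κ ≠ 0)
    (B J A C : ℕ) (ε : ℝ) (hε : 0 < ε) (hε1 : ε ≤ 1) : ∃ K₀ : ℕ, ∀ K₁ : ℕ, ∃ k₀ : ℕ, ∀ k : ℕ, k₀ ≤ k →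
    ∀ p, Cl k p → ∀ y : ℕ, K₀ * Real.log k ≤ y → y ≤ K₁ * Real.log k → ∀ c : ℤ, |c| ≤ B * (b : ℤ) ^ k →
    ∀ h : ℕ, 1 ≤ h → h ≤ k ^ J → ∀ X : ℕ, b ^ k ≤ X * k ^ C → X ≤ b ^ k * k ^ C →
    ∀ (I : Finset ℕ) (f : ℕ → ℕ), Set.InjOn f I → (∀ i ∈ I, (f i).Prime ∧ f i ≤ X) → (X : ℝ) ≤ I.card * (k : ℝ) ^ A →
    ∑ v ∈ range (b ^ k), (if 0 ≤ ((primorial y * h : ℕ) : ℤ) * (c + κ * (v : ℕ)) ∧
      ((I.filter (fun i => (f i + (((primorial y * h : ℕ) : ℤ) * (c + κ * (v : ℕ))).toNat).Prime)).card : ℝ) <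
      (1 - ε) * (I.card / (Vz y * (k * Real.log b))) then p v else 0) ≤ ε := by
  obtain ⟨K₀, h0⟩ := dense_law b q₀ hb Cl hC κ hκ B J A C ε hε hε1
  refine ⟨K₀, fun K₁ => ?_⟩
  obtain ⟨k₀, h0⟩ := h0 K₁
  refine ⟨k₀, fun k hk p hp y hy1 hy2 c hc h hh1 hhJ X hX1 hX2 I f hinj hf hIA => ?_⟩
  have hcI : (I.image f).card = I.card := card_image_of_injOn hinj
  refine le_trans (sum_le_sum fun v _ => ?_) (h0 k hk p hp y hy1 hy2 c hc h hh1 hhJ X hX1 hX2 (I.image f) (by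
    intro s hs
    rw [mem_image] at hs
    obtain ⟨i, hi, rfl⟩ := hs
    rw [mem_Icc]
    exact ⟨(hf i hi).1.one_lt.le, (hf i hi).2⟩) (by
    intro s hs
    rw [mem_image] at hs
    obtain ⟨i, hi, rfl⟩ := hs
    exact (hf i hi).1) (by rw [hcI]; exact hIA) 1 (Or.inl rfl))
  have hpv := (hC.nonneg _ _ hp) v
  by_cases hc : 0 ≤ ((primorial y * h : ℕ) : ℤ) * (c + κ * (v : ℕ)) ∧
      ((I.filter (fun i => (f i + (((primorial y * h : ℕ) : ℤ) * (c + κ * (v : ℕ))).toNat).Prime)).card : ℝ) <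
      (1 - ε) * (I.card / (Vz y * (k * Real.log b)))
  · rw [if_pos hc, if_pos]
    obtain ⟨h1, h2⟩ := hc
    refine ⟨fun s hs => ?_, ?_⟩
    · rw [mem_image] at hs
      obtain ⟨i, hi, rfl⟩ := hs
      have h3 : (0 : ℤ) < (f i : ℕ) := by exact_mod_cast (hf i hi).1.pos
      rw [one_mul]
      linarith
    · rw [hcI]
      refine lt_of_le_of_lt ?_ h2
      have h4 : (I.image f).filter (fun s => (((primorial y * h : ℕ) : ℤ) * (c + κ * (v : ℕ)) + 1 * (s : ℕ)).toNat.Prime) ⊆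
          (I.filter (fun i => (f i + (((primorial y * h : ℕ) : ℤ) * (c + κ * (v : ℕ))).toNat).Prime)).image f := by
        intro s hs
        rw [mem_filter, mem_image] at hs
        obtain ⟨⟨i, hi, rfl⟩, hp⟩ := hs
        rw [mem_image]
        refine ⟨i, ?_, rfl⟩
        rw [mem_filter]
        refine ⟨hi, ?_⟩
        have h5 : (((primorial y * h : ℕ) : ℤ) * (c + κ * (v : ℕ)) + 1 * (f i : ℕ)).toNat =
            f i + (((primorial y * h : ℕ) : ℤ) * (c + κ * (v : ℕ))).toNat := by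
          omega
        rw [h5] at hp
        exact hp
      exact_mod_cast (card_le_card h4).trans card_image_le
  · rw [if_neg hc]
    split_ifs
    · exact hpv
    · exact le_rfl

open Classical in
/-- pairs of shifts -/
theorem dense_pair (b q₀ : ℕ) (hb : 2 ≤ b) (Cl : ℕ → (ℕ → ℝ) → Prop) (hC : SCls b q₀ Cl) (κ : ℤ) (hκ : κ ≠ 0)
    (B J A C : ℕ) (ε : ℝ) (hε : 0 < ε) (hε1 : ε ≤ 1) : ∃ K₀ : ℕ, ∀ K₁ : ℕ, ∃ k₀ : ℕ, ∀ k : ℕ, k₀ ≤ k →
    ∀ p p', Cl k p → Cl k p' → ∀ y : ℕ, K₀ * Real.log k ≤ y → y ≤ K₁ * Real.log k →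
    ∀ c c' : ℤ, |c| ≤ B * (b : ℤ) ^ k → |c'| ≤ B * (b : ℤ) ^ k →
    ∀ h h' : ℕ, 1 ≤ h → h ≤ k ^ J → 1 ≤ h' → h' ≤ k ^ J → ∀ X : ℕ, b ^ k ≤ X * k ^ C → X ≤ b ^ k * k ^ C →
    ∀ (I : Finset ℕ) (f f' : ℕ → ℕ), Set.InjOn f I → (∀ i ∈ I, (f i).Prime ∧ f i ≤ X) →
    Set.InjOn f' I → (∀ i ∈ I, (f' i).Prime ∧ f' i ≤ X) → (X : ℝ) ≤ I.card * (k : ℝ) ^ A →
    ∑ v ∈ range (b ^ k), ∑ v' ∈ range (b ^ k), (if 0 ≤ ((primorial y * h : ℕ) : ℤ) * (c + κ * (v : ℕ)) ∧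
      0 ≤ ((primorial y * h' : ℕ) : ℤ) * (c' + κ * (v' : ℕ)) ∧
      ((I.filter (fun i => (f i + (((primorial y * h : ℕ) : ℤ) * (c + κ * (v : ℕ))).toNat).Prime ∧
        (f' i + (((primorial y * h' : ℕ) : ℤ) * (c' + κ * (v' : ℕ))).toNat).Prime)).card : ℝ) <
      (1 - ε) * (I.card / (Vz y * (k * Real.log b)) ^ 2) then p v * p' v' else 0) ≤ ε := by
  obtain ⟨δ, hδ⟩ : ∃ δ, δ = ε / 2 := ⟨_, rfl⟩
  have hδ0 : 0 < δ := by rw [hδ]; positivity
  have hδ1 : δ ≤ 1 / 2 := by rw [hδ]; linarith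
  obtain ⟨Ka, h1⟩ := dense_shift b q₀ hb Cl hC κ hκ B J A C δ hδ0 (by linarith)
  obtain ⟨Kb, h2⟩ := dense_shift b q₀ hb Cl hC κ hκ B J (A + 2) C δ hδ0 (by linarith)
  refine ⟨max Ka Kb, fun K₁ => ?_⟩
  obtain ⟨k1, h1⟩ := h1 K₁
  obtain ⟨k2, h2⟩ := h2 K₁
  obtain ⟨k3, hk3⟩ := exists_nat_ge (2 * Real.log b)
  refine ⟨max (max k1 k2) (max k3 1), fun k hk p p' hp hp' y hy1 hy2 c c' hc hc' h h' hh1 hhJ hh1' hhJ' X hX1 hX2 I f f' hinj hf hinj' hf' hIA => ?_⟩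
  have b1 : k1 ≤ k := by omega
  have b2 : k2 ≤ k := by omega
  have b3 : 2 * Real.log b ≤ k := hk3.trans (by exact_mod_cast (by omega : k3 ≤ k))
  have b4 : 1 ≤ k := by omega
  have hkr : (1 : ℝ) ≤ k := by exact_mod_cast b4
  have hk0 : (0 : ℝ) < k := by linarith
  have hlk : 0 ≤ Real.log k := Real.log_nonneg hkr
  have hbr : (2 : ℝ) ≤ b := by exact_mod_cast hb
  have hlogb : 0 < Real.log b := Real.log_pos (by linarith)
  have hya : Ka * Real.log k ≤ y := le_trans (mul_le_mul_of_nonneg_right (by exact_mod_cast le_max_left _ _) hlk) hy1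
  have hyb : Kb * Real.log k ≤ y := le_trans (mul_le_mul_of_nonneg_right (by exact_mod_cast le_max_right _ _) hlk) hy1
  have hVy := Vz_pos y
  have hVy1 := Vz_le_one y
  obtain ⟨D, hD⟩ : ∃ D, D = Vz y * (k * Real.log b) := ⟨_, rfl⟩
  have hD0 : 0 < D := by rw [hD]; positivity
  have hDk : 2 * D ≤ (k : ℝ) ^ 2 := by
    rw [hD]
    have : Vz y * (k * Real.log b) ≤ 1 * (k * Real.log b) := mul_le_mul_of_nonneg_right hVy1 (by positivity)
    nlinarith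
  have k1' := h1 k b1 p hp y hya hy2 c hc h hh1 hhJ X hX1 hX2 I f hinj hf hIA
  rw [← hD] at k1' ⊢
  obtain ⟨n, hn⟩ : ∃ n : ℝ, n = I.card := ⟨_, rfl⟩
  have hn0 : 0 ≤ n := by rw [hn]; exact Nat.cast_nonneg _
  rw [← hn] at k1' hIA ⊢
  obtain ⟨Q1, hQ1⟩ : ∃ Q1 : ℕ → Prop, ∀ v, Q1 v ↔ (0 ≤ ((primorial y * h : ℕ) : ℤ) * (c + κ * (v : ℕ)) ∧
      ((I.filter (fun i => (f i + (((primorial y * h : ℕ) : ℤ) * (c + κ * (v : ℕ))).toNat).Prime)).card : ℝ) <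
      (1 - δ) * (n / D)) := ⟨_, fun _ => Iff.rfl⟩
  have s1 : ∑ v ∈ range (b ^ k), (if Q1 v then p v else 0) ≤ δ := by
    refine le_trans (le_of_eq ?_) k1'
    apply sum_congr rfl
    intro v _
    by_cases hq : Q1 v
    · rw [if_pos hq, if_pos ((hQ1 v).1 hq)]
    · rw [if_neg hq, if_neg (fun h => hq ((hQ1 v).2 h))]
  have hsum' := (hC.sum _ _ hp')
  have key : ∀ v ∈ range (b ^ k), ∑ v' ∈ range (b ^ k), (if 0 ≤ ((primorial y * h : ℕ) : ℤ) * (c + κ * (v : ℕ)) ∧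
      0 ≤ ((primorial y * h' : ℕ) : ℤ) * (c' + κ * (v' : ℕ)) ∧
      ((I.filter (fun i => (f i + (((primorial y * h : ℕ) : ℤ) * (c + κ * (v : ℕ))).toNat).Prime ∧
        (f' i + (((primorial y * h' : ℕ) : ℤ) * (c' + κ * (v' : ℕ))).toNat).Prime)).card : ℝ) <
      (1 - ε) * (n / D ^ 2) then p v * p' v' else 0) ≤ (if Q1 v then p v else 0) + p v * δ := by
    intro v _
    have hpv := (hC.nonneg _ _ hp) v
    by_cases hv0 : 0 ≤ ((primorial y * h : ℕ) : ℤ) * (c + κ * (v : ℕ))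
    · by_cases hq : Q1 v
      · rw [if_pos hq]
        have g1 : ∑ v' ∈ range (b ^ k), (if 0 ≤ ((primorial y * h : ℕ) : ℤ) * (c + κ * (v : ℕ)) ∧
          0 ≤ ((primorial y * h' : ℕ) : ℤ) * (c' + κ * (v' : ℕ)) ∧
          ((I.filter (fun i => (f i + (((primorial y * h : ℕ) : ℤ) * (c + κ * (v : ℕ))).toNat).Prime ∧
            (f' i + (((primorial y * h' : ℕ) : ℤ) * (c' + κ * (v' : ℕ))).toNat).Prime)).card : ℝ) <
          (1 - ε) * (n / D ^ 2) then p v * p' v' else 0) ≤ ∑ v' ∈ range (b ^ k), p v * p' v' := by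
          apply sum_le_sum
          intro v' _
          split_ifs
          · exact le_rfl
          · exact mul_nonneg hpv ((hC.nonneg _ _ hp') v')
        rw [← mul_sum, hsum', mul_one] at g1
        have g2 : 0 ≤ p v * δ := by positivity
        linarith
      · rw [if_neg hq, zero_add]
        obtain ⟨I', hI'⟩ : ∃ I', I' = I.filter (fun i => (f i + (((primorial y * h : ℕ) : ℤ) * (c + κ * (v : ℕ))).toNat).Prime) := ⟨_, rfl⟩
        have hsub : I' ⊆ I := by rw [hI']; exact filter_subset _ _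
        have hI'c : (1 - δ) * (n / D) ≤ I'.card := by
          by_contra hcon
          push Not at hcon
          apply hq
          rw [hQ1]
          refine ⟨hv0, ?_⟩
          rw [← hI']
          exact hcon
        have hI'A : (X : ℝ) ≤ I'.card * (k : ℝ) ^ (A + 2) := by
          have g1 : n ≤ I'.card * (k : ℝ) ^ 2 := by
            have g2 : 1 / 2 * (n / D) ≤ (1 - δ) * (n / D) := mul_le_mul_of_nonneg_right (by linarith) (by positivity)
            have g3 : n / D ≤ 2 * I'.card := by linarith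
            rw [div_le_iff₀ hD0] at g3
            have g4 : (I'.card : ℝ) * (2 * D) ≤ I'.card * (k : ℝ) ^ 2 := mul_le_mul_of_nonneg_left hDk (Nat.cast_nonneg _)
            linarith
          calc (X : ℝ) ≤ n * (k : ℝ) ^ A := hIA
            _ ≤ (I'.card * (k : ℝ) ^ 2) * (k : ℝ) ^ A := mul_le_mul_of_nonneg_right g1 (by positivity)
            _ = _ := by rw [pow_add]; ring
        have k2' := h2 k b2 p' hp' y hyb hy2 c' hc' h' hh1' hhJ' X hX1 hX2 I' f' (hinj'.mono (by exact_mod_cast hsub))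
          (fun i hi => hf' i (hsub hi)) hI'A
        rw [← hD] at k2'
        refine le_trans ?_ (mul_le_mul_of_nonneg_left k2' hpv)
        rw [mul_sum]
        apply sum_le_sum
        intro v' _
        by_cases hc2 : 0 ≤ ((primorial y * h : ℕ) : ℤ) * (c + κ * (v : ℕ)) ∧
          0 ≤ ((primorial y * h' : ℕ) : ℤ) * (c' + κ * (v' : ℕ)) ∧
          ((I.filter (fun i => (f i + (((primorial y * h : ℕ) : ℤ) * (c + κ * (v : ℕ))).toNat).Prime ∧
            (f' i + (((primorial y * h' : ℕ) : ℤ) * (c' + κ * (v' : ℕ))).toNat).Prime)).card : ℝ) <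
          (1 - ε) * (n / D ^ 2)
        · rw [if_pos hc2, if_pos]
          obtain ⟨_, g2, g3⟩ := hc2
          refine ⟨g2, ?_⟩
          have e1 : I.filter (fun i => (f i + (((primorial y * h : ℕ) : ℤ) * (c + κ * (v : ℕ))).toNat).Prime ∧
            (f' i + (((primorial y * h' : ℕ) : ℤ) * (c' + κ * (v' : ℕ))).toNat).Prime) =
            I'.filter (fun i => (f' i + (((primorial y * h' : ℕ) : ℤ) * (c' + κ * (v' : ℕ))).toNat).Prime) := by
            rw [hI', filter_filter]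
          rw [e1] at g3
          refine lt_of_lt_of_le g3 ?_
          have g4 : (1 - ε) * (n / D ^ 2) ≤ (1 - δ) * (((1 - δ) * (n / D)) / D) := by
            have e2 : (1 - δ) * (((1 - δ) * (n / D)) / D) = (1 - δ) ^ 2 * (n / D ^ 2) := by
              field_simp
            rw [e2]
            apply mul_le_mul_of_nonneg_right _ (by positivity)
            rw [hδ]
            nlinarith
          refine g4.trans ?_
          apply mul_le_mul_of_nonneg_left _ (by linarith)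
          exact div_le_div_of_nonneg_right hI'c hD0.le
        · rw [if_neg hc2]
          split_ifs
          · exact mul_nonneg hpv ((hC.nonneg _ _ hp') v')
          · rw [mul_zero]
    · rw [sum_eq_zero]
      · have : 0 ≤ (if Q1 v then p v else 0) := by
          split_ifs
          · exact hpv
          · exact le_rfl
        positivity
      · intro v' _
        rw [if_neg]
        intro hcon
        exact hv0 hcon.1
  refine (sum_le_sum key).trans ?_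
  rw [sum_add_distrib, ← sum_mul, (hC.sum _ _ hp), one_mul]
  rw [hδ] at s1 ⊢
  linarith

end Pool.Agent.U710.XP
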