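import Pool.Agent.U710.XP.E
import Pool.Agent.N625.PT.X11

set_option autoImplicit false

/-! Random integers given by digits with exponential decay of the characters: the exact law. -/

namespace Pool.Agent.U710.XP
open Finset
open Pool.Agent.N625.PT
open Pool.Agent.H373R2.T7 (pz mem_pz Vz Vz_pos Vz_le_one Vz_inv_small ev_L')
open Pool.Agent.Y877.SX (mid Vm fd mem_mid fac_pos fac_le Vm_pos Vm_le fd_one fd_mul FF_sum Vz_split fac_inv_one)
open Pool.Agent.Y885 (TLaw)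
open Pool.Agent.H373R2.T7 (pz mem_pz Vz Vz_pos Vz_le_one ev_L' lamI lamzI lamz)
open Pool.Agent.Y877.SX (mid Vm mem_mid Vm_pos Vz_split primorial_le_log)

set_option maxHeartbeats 2000000 in
open Classical in
theorem rough_law2 (b q₀ : ℕ) (hb : 2 ≤ b) (Cl : ℕ → (ℕ → ℝ) → Prop) (hC : SCls b q₀ Cl) (A : ℕ) (δ ε : ℝ) (hδ : 0 < δ)
    (hε : 0 < ε) (θ : ℝ) (hθ : 0 < θ) (E : ℕ) : ∃ k₀ : ℕ, ∀ k : ℕ, k₀ ≤ k → ∀ p, Cl k p →
    ∀ y z : ℕ, θ * Real.log k ≤ y → y ≤ z → (z : ℝ) ≤ (k : ℝ) ^ E → ∀ P : Finset ℕ, P ⊆ mid y z →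
    ∀ (X : ℕ) (S : Finset ℕ), S ⊆ Icc 1 X → (X : ℝ) ≤ S.card * (k : ℝ) ^ A → (k : ℝ) ^ 5 ≤ S.card →
    ∀ (α : ℤ) (β : ℕ → ℤ), (∀ q ∈ P, ¬ (q : ℤ) ∣ α) →
    (∀ s ∈ S, ∀ t ∈ S, ∀ q v : ℕ, (q : ℤ) ∣ α * v + β s → (q : ℤ) ∣ α * v + β t → q ∣ Nat.dist s t * (s + t)) →
    ∑ v ∈ range (b ^ k), (if δ * (S.card * VP P) < |((S.filter (fun s => ∀ q ∈ P, ¬ (q : ℤ) ∣ α * (v : ℕ) + β s)).card : ℝ) -
      S.card * VP P| then p v else 0) ≤ ε := by
  obtain ⟨η, hη⟩ : ∃ η : ℝ, η = ε * δ ^ 2 / 2 := ⟨_, rfl⟩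
  have hη0' : 0 < η := by rw [hη]; positivity
  have hlη : 0 < Real.log (1 + η) := Real.log_pos (by linarith)
  obtain ⟨R, hR⟩ := exists_nat_ge (2 * ((A + 2) / Real.log (1 + η) + 1) / θ)
  obtain ⟨G1, hG1⟩ := single_law b q₀ hb Cl hC E 5
  obtain ⟨G2, hG2⟩ := pair_law b q₀ hb Cl hC E 5
  obtain ⟨G3, hG3⟩ := VP_low E
  obtain ⟨x2, hx2⟩ := ev_L' (max (max 1 (Real.log (2 * Cr R))) (((q₀ : ℝ) + 2) / θ))
  obtain ⟨x3, hx3⟩ := exists_nat_ge (12 / (ε * δ ^ 2))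
  refine ⟨max (max G1 G2) (max G3 (max x2 (max x3 1))), fun k hk p hp y z hy hyz hz P hP X S hS hSc hS5 α β hα hβ => ?_⟩
  have b1 : G1 ≤ k := le_trans (le_trans (le_max_left _ _) (le_max_left _ _)) hk
  have b2 : G2 ≤ k := le_trans (le_trans (le_max_right _ _) (le_max_left _ _)) hk
  have b3 : G3 ≤ k := le_trans (le_trans (le_max_left _ _) (le_max_right _ _)) hk
  have b4 : x2 ≤ k := le_trans (le_trans (le_trans (le_max_left _ _) (le_max_right _ _)) (le_max_right _ _)) hk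
  have b5 : x3 ≤ k := le_trans (le_trans (le_trans (le_trans (le_max_left _ _) (le_max_right _ _)) (le_max_right _ _)) (le_max_right _ _)) hk
  have b6 : 1 ≤ k := le_trans (le_trans (le_trans (le_trans (le_max_right _ _) (le_max_right _ _)) (le_max_right _ _)) (le_max_right _ _)) hk
  have hkr : (1 : ℝ) ≤ k := by exact_mod_cast b6
  have hk0 : (0 : ℝ) < k := by linarith
  have hLL0 := hx2 k b4
  have hLL : 1 ≤ Real.log k := (le_max_left _ _).trans ((le_max_left _ _).trans hLL0)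
  have hLC : Real.log (2 * Cr R) ≤ Real.log k := (le_max_right _ _).trans ((le_max_left _ _).trans hLL0)
  have hLb : ((q₀ : ℝ) + 2) / θ ≤ Real.log k := (le_max_right _ _).trans hLL0
  have hx3' : 12 / (ε * δ ^ 2) ≤ k := hx3.trans (by exact_mod_cast b5)
  obtain ⟨lk, hlk⟩ : ∃ lk, lk = Real.log k := ⟨_, rfl⟩
  rw [← hlk] at hy hLL hLb hLC
  have hLb2 : (q₀ : ℝ) + 2 ≤ y := by
    rw [div_le_iff₀ hθ] at hLb
    linarith
  have hbLy : q₀ ≤ y := by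
    have : (q₀ : ℝ) ≤ y := by linarith
    exact_mod_cast this
  have hy2 : 2 ≤ y := by
    have : (q₀ : ℝ) ≥ 0 := Nat.cast_nonneg _
    have : (2 : ℝ) ≤ y := by linarith
    exact_mod_cast this
  have hR1 : 1 ≤ R := by
    have : (0 : ℝ) < 2 * ((A + 2) / Real.log (1 + η) + 1) / θ := by positivity
    have : (0 : ℝ) < R := by linarith
    exact_mod_cast this
  have hz1 : 1 ≤ z := by omega
  obtain ⟨V, hV⟩ : ∃ V, V = VP P := ⟨_, rfl⟩
  have hV0 : 0 < V := by rw [hV]; exact VP_pos hP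
  have hV1 : V ≤ 1 := by rw [hV]; exact VP_le hP
  have hVL : 1 / (k : ℝ) ^ 2 ≤ V := by rw [hV]; exact hG3 k b3 y z hyz hz1 hz P hP
  obtain ⟨m, hm⟩ : ∃ m : ℝ, m = (S.card : ℝ) := ⟨_, rfl⟩
  rw [← hm] at hSc hS5
  have hm0 : 0 < m := lt_of_lt_of_le (by positivity) hS5
  have hRy : 2 ≤ R * y := by nlinarith
  obtain ⟨n, hn⟩ : ∃ n, R * y / 2 = n + 1 := ⟨R * y / 2 - 1, by omega⟩
  have hn6 : 2 * (n + 1) ≤ R * y := by omega
  have hpow : 2 * Cr R * (X : ℝ) ≤ (1 + η) ^ (n + 1) * S.card := by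
    have hC0 := Cr_pos R
    have h1 : 2 * Cr R * (k : ℝ) ^ A ≤ (1 + η) ^ (n + 1) := by
      have h2 : ((n + 1 : ℕ) : ℝ) ≥ (R : ℝ) * y / 2 - 1 := by
        have : R * y < 2 * (n + 1) + 2 := by omega
        have h3 : (R : ℝ) * y < 2 * ((n + 1 : ℕ) : ℝ) + 2 := by exact_mod_cast this
        linarith
      have h3 : (R : ℝ) * y / 2 - 1 ≥ (R * θ / 2 - 1) * lk := by
        have h0 : (R : ℝ) * (θ * lk) ≤ R * y := mul_le_mul_of_nonneg_left hy (Nat.cast_nonneg _)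
        have h1 : ((R : ℝ) * θ / 2 - 1) * lk = (R * (θ * lk)) / 2 - lk := by ring
        rw [h1]
        linarith
      have h4 : (A + 2) / Real.log (1 + η) ≤ R * θ / 2 - 1 := by
        rw [div_le_iff₀ hθ] at hR
        linarith
      have h5 : (A + 2 : ℝ) ≤ (R * θ / 2 - 1) * Real.log (1 + η) := by
        rwa [div_le_iff₀ hlη] at h4
      have h6 : Real.log (2 * Cr R * (k : ℝ) ^ A) ≤ ((n + 1 : ℕ) : ℝ) * Real.log (1 + η) := by
        rw [Real.log_mul (by positivity) (by positivity), Real.log_pow, ← hlk]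
        calc Real.log (2 * Cr R) + A * lk ≤ lk + A * lk := by linarith
          _ ≤ (A + 2) * lk := by linarith
          _ ≤ ((R * θ / 2 - 1) * Real.log (1 + η)) * lk := by gcongr
          _ = ((R * θ / 2 - 1) * lk) * Real.log (1 + η) := by ring
          _ ≤ ((n + 1 : ℕ) : ℝ) * Real.log (1 + η) := by gcongr; linarith
      rw [← Real.log_pow] at h6
      exact (Real.log_le_log_iff (by positivity) (by positivity)).1 h6
    rw [← hm]
    calc 2 * Cr R * (X : ℝ) ≤ 2 * Cr R * (m * (k : ℝ) ^ A) := by gcongr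
      _ = 2 * Cr R * (k : ℝ) ^ A * m := by ring
      _ ≤ _ := by gcongr
  obtain ⟨Pr, hPr⟩ : ∃ Pr : ℕ → ℕ → Prop, ∀ s v, Pr s v ↔ (∀ q ∈ P, ¬ (q : ℤ) ∣ α * (v : ℕ) + β s) := ⟨_, fun _ _ => Iff.rfl⟩
  obtain ⟨r, hr⟩ : ∃ r : ℝ, r = 1 / (k : ℝ) ^ 5 := ⟨_, rfl⟩
  have c1 : ∀ s ∈ S, V - r ≤ ∑ v ∈ (range (b ^ k)).filter (fun v => Pr s v), p v := by
    intro s _
    have := hG1 k b1 p hp y z hbLy hz1 hz P hP α (β s) hα
    have e1 : (range (b ^ k)).filter (fun v => Pr s v) = (range (b ^ k)).filter (fun v : ℕ => ∀ q ∈ P, ¬ (q : ℤ) ∣ α * v + β s) := by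
      ext v
      rw [mem_filter, mem_filter, hPr]
    rw [e1, hV, hr]
    exact this
  have c2 : ∀ s ∈ S, ∀ t ∈ S.erase s, ∑ v ∈ (range (b ^ k)).filter (fun v => Pr s v ∧ Pr t v), p v ≤ V ^ 2 * Pool.Agent.Y877.SX.FF y z s t + r := by
    intro s hs t ht
    have := hG2 k b2 p hp y z hbLy hz1 hz P hP α (β s) (β t) (Nat.dist s t * (s + t)) hα (by
      intro q _ v h1 h2
      exact hβ s hs t (mem_of_mem_erase ht) q v h1 h2)
    have e1 : (range (b ^ k)).filter (fun v => Pr s v ∧ Pr t v) = (range (b ^ k)).filter (fun v : ℕ =>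
        (∀ q ∈ P, ¬ (q : ℤ) ∣ α * v + β s) ∧ (∀ q ∈ P, ¬ (q : ℤ) ∣ α * v + β t)) := by
      ext v
      rw [mem_filter, mem_filter, hPr, hPr]
    rw [e1, hV, hr]
    refine this.trans ?_
    have h5 : fd y z (Nat.dist s t * (s + t)) ≤ Pool.Agent.Y877.SX.FF y z s t := fd_mul _ _ _ _
    have h6 : VP P ^ 2 * fd y z (Nat.dist s t * (s + t)) ≤ VP P ^ 2 * Pool.Agent.Y877.SX.FF y z s t :=
      mul_le_mul_of_nonneg_left h5 (by positivity)
    linarith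
  have c3 : ∀ s ∈ S, ∑ t ∈ S.erase s, Pool.Agent.Y877.SX.FF y z s t ≤ (1 + η) * m := fun s hs => by
    have := FF_sumR R y z n X (by omega) hn6 S hS η hη0' hpow s hs
    rwa [← hm] at this
  have hr0 : 0 ≤ r := by rw [hr]; positivity
  have key := chebW2 S (range (b ^ k)) Pr p (hC.nonneg _ _ hp) (hC.sum _ _ hp) V η δ r m (Pool.Agent.Y877.SX.FF y z) hV0 hV1 hδ hm.symm hr0 c1 c2 c3
  have e2 : ∑ v ∈ range (b ^ k), (if δ * (S.card * VP P) < |((S.filter (fun s => ∀ q ∈ P, ¬ (q : ℤ) ∣ α * (v : ℕ) + β s)).card : ℝ) -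
      S.card * VP P| then p v else 0) =
      ∑ v ∈ range (b ^ k), (if δ * (m * V) < |((S.filter (fun s => Pr s v)).card : ℝ) - m * V| then p v else 0) := by
    apply sum_congr rfl
    intro v _
    have e3 : S.filter (fun s => ∀ q ∈ P, ¬ (q : ℤ) ∣ α * (v : ℕ) + β s) = S.filter (fun s => Pr s v) := by
      ext s
      rw [mem_filter, mem_filter, hPr]
    rw [e3, ← hm, ← hV]
  rw [e2]
  obtain ⟨cnt, hcnt⟩ : ∃ cnt, cnt = ∑ v ∈ range (b ^ k), (if δ * (m * V) < |((S.filter (fun s => Pr s v)).card : ℝ) - m * V|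
    then p v else 0) := ⟨_, rfl⟩
  rw [← hcnt] at key ⊢
  have hmV : 0 < m * V := by positivity
  have hV4 : 1 / (k : ℝ) ^ 4 ≤ V ^ 2 := by
    have := pow_le_pow_left₀ (by positivity) hVL 2
    rw [div_pow, one_pow, ← pow_mul] at this
    exact this
  have hc : 3 ≤ ε / 4 * δ ^ 2 * k := by
    rw [div_le_iff₀ (by positivity)] at hx3'
    linarith
  have k1 : m ≤ ε / 4 * δ ^ 2 * (m * V) ^ 2 := by
    have h3 : 1 ≤ ε / 4 * δ ^ 2 * (m * V ^ 2) := by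
      have h4 : (k : ℝ) ≤ m * V ^ 2 := by
        calc (k : ℝ) = (k : ℝ) ^ 5 * (1 / (k : ℝ) ^ 4) := by field_simp
          _ ≤ m * V ^ 2 := mul_le_mul hS5 hV4 (by positivity) hm0.le
      have h5 : ε / 4 * δ ^ 2 * k ≤ ε / 4 * δ ^ 2 * (m * V ^ 2) := mul_le_mul_of_nonneg_left h4 (by positivity)
      linarith
    calc m = m * 1 := by ring
      _ ≤ m * (ε / 4 * δ ^ 2 * (m * V ^ 2)) := mul_le_mul_of_nonneg_left h3 hm0.le
      _ = _ := by ring
  have k2 : 3 * (m ^ 2 * r) ≤ ε / 4 * δ ^ 2 * (m * V) ^ 2 := by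
    have h2 : 3 * r ≤ ε / 4 * δ ^ 2 * V ^ 2 := by
      calc 3 * r ≤ (ε / 4 * δ ^ 2 * k) * r := mul_le_mul_of_nonneg_right hc hr0
        _ = ε / 4 * δ ^ 2 * (1 / (k : ℝ) ^ 4) := by rw [hr]; field_simp
        _ ≤ _ := mul_le_mul_of_nonneg_left hV4 (by positivity)
    calc 3 * (m ^ 2 * r) = m ^ 2 * (3 * r) := by ring
      _ ≤ m ^ 2 * (ε / 4 * δ ^ 2 * V ^ 2) := mul_le_mul_of_nonneg_left h2 (by positivity)
      _ = _ := by ring
  have k3 : cnt * (δ * (m * V)) ^ 2 ≤ ε * (δ * (m * V)) ^ 2 := by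
    refine key.trans ?_
    have h1 : η * (m * V) ^ 2 = ε / 2 * δ ^ 2 * (m * V) ^ 2 := by rw [hη]; ring
    have h2 : ε * (δ * (m * V)) ^ 2 = ε / 2 * δ ^ 2 * (m * V) ^ 2 + ε / 4 * δ ^ 2 * (m * V) ^ 2 +
      ε / 4 * δ ^ 2 * (m * V) ^ 2 := by ring
    rw [h1, h2]
    linarith
  exact le_of_mul_le_mul_right k3 (by positivity)

set_option maxHeartbeats 4000000 in
open Classical in
/-- random multiples of a small primorial: sums and differences with the elements of an arbitrary dense set of integers free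
of small primes, asymptotic formula -/
theorem law2 (b q₀ : ℕ) (hb : 2 ≤ b) (Cl : ℕ → (ℕ → ℝ) → Prop) (hC : SCls b q₀ Cl) (κ : ℤ) (hκ : κ ≠ 0)
    (B J A C K₁ : ℕ) (θ : ℝ) (hθ : 0 < θ) (ε : ℝ) (hε : 0 < ε) (hε1 : ε ≤ 1) : ∃ k₀ : ℕ, ∀ k : ℕ, k₀ ≤ k →
    ∀ p, Cl k p → ∀ y : ℕ, θ * Real.log k ≤ y → y ≤ K₁ * Real.log k → ∀ c : ℤ, |c| ≤ B * (b : ℤ) ^ k →
    ∀ h : ℕ, 1 ≤ h → h ≤ k ^ J → ∀ X : ℕ, b ^ k ≤ X * k ^ C → X ≤ b ^ k * k ^ C →
    ∀ S : Finset ℕ, S ⊆ Icc 1 X → (∀ s ∈ S, s.Coprime (primorial y * h)) → (X : ℝ) ≤ S.card * (k : ℝ) ^ A → ∀ σ : ℤ, (σ = 1 ∨ σ = -1) →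
    ∑ v ∈ range (b ^ k), (if (∀ s ∈ S, 0 < ((primorial y * h : ℕ) : ℤ) * (c + κ * (v : ℕ)) + σ * (s : ℕ)) ∧
      ε * (S.card / (Vz y * (k * Real.log b))) <
      |((S.filter (fun s => (((primorial y * h : ℕ) : ℤ) * (c + κ * (v : ℕ)) + σ * (s : ℕ)).toNat.Prime)).card : ℝ) -
      S.card / (Vz y * (k * Real.log b))| then p v else 0) ≤ ε := by
  obtain ⟨Fκ, hF1, hlawF⟩ := (hC.tcls κ hκ).law
  obtain ⟨δ, hδ⟩ : ∃ δ, δ = ε / 8 := ⟨_, rfl⟩
  have hδ0 : 0 < δ := by rw [hδ]; positivity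
  have hδ8 : δ ≤ 1 / 8 := by rw [hδ]; linarith
  have hrough := rough_law2 b q₀ hb Cl hC A δ δ hδ0 hδ0 θ hθ
  obtain ⟨J₁, hJ₁⟩ : ∃ J₁, J₁ = J + 2 * K₁ := ⟨_, rfl⟩
  obtain ⟨J₂, hJ₂⟩ : ∃ J₂, J₂ = J₁ + C := ⟨_, rfl⟩
  obtain ⟨e₀, he₀⟩ : ∃ e₀, e₀ = Fκ + B + κ.natAbs + 4 := ⟨_, rfl⟩
  obtain ⟨W, hW⟩ : ∃ W, W = 3 * J₂ + e₀ := ⟨_, rfl⟩
  obtain ⟨U, hU⟩ : ∃ U, U = J₂ + A + C + 1 := ⟨_, rfl⟩
  obtain ⟨cT, m₀, hlaw⟩ := hlawF W (2 * U + 6)
  obtain ⟨B', hB'⟩ := tl_sgn b 15 cT hb (by norm_num) U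
  obtain ⟨k1, hk1⟩ := hB' (B' + 2)
  obtain ⟨k2, hk2⟩ := hrough (2 * (B' + 2))
  obtain ⟨w, hw⟩ : ∃ w, w = 2 * (J₂ + A + C + 3) + A + C + 2 * (B' + 2) + 10 := ⟨_, rfl⟩
  obtain ⟨k3, hk3⟩ := pow_le_pow_digits b hb w
  obtain ⟨Γ, hΓ⟩ : ∃ Γ : ℝ, Γ = (b : ℝ) ^ (J₂ + e₀) := ⟨_, rfl⟩
  obtain ⟨k4, hk4⟩ := exists_nat_ge (8 * Γ / δ ^ 2)
  obtain ⟨k5, hk5⟩ := ev_L' (max 1 ((κ.natAbs + 1) / θ))
  obtain ⟨W', hW'⟩ : ∃ W', W' = W + 2 * (A + C + 3) := ⟨_, rfl⟩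
  obtain ⟨k6, hk6⟩ := ev4 (max (2 * (K₁ : ℝ)) (W' / δ))
  obtain ⟨k8, hk8⟩ := VP_up J θ δ hθ hδ0
  obtain ⟨k7, hk7⟩ := exists_nat_ge ((1 + W) * Real.log b)
  refine ⟨max (max (max m₀ k1) (max k2 k3)) (max (max k4 k5) (max (max k6 k7) (max k8 3))), fun k hk p hp y hy1 hy2 c hc h hh1 hhJ X hX1 hX2 S hS hSp hSA σ hσ => ?_⟩
  have b1 : m₀ ≤ k := by omega
  have b2 : k1 ≤ k := by omega
  have b3 : k2 ≤ k := by omega
  have b4 := hk3 k (by omega)
  have b5 := hk5 k (by omega)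
  obtain ⟨b6, b6'⟩ := hk6 k (by omega)
  have b7 : (1 + W) * Real.log b ≤ k := hk7.trans (by exact_mod_cast (by omega : k7 ≤ k))
  have b8 : 8 * Γ / δ ^ 2 ≤ k := hk4.trans (by exact_mod_cast (by omega : k4 ≤ k))
  have b9 : 3 ≤ k := by omega
  have hbr : (2 : ℝ) ≤ b := by exact_mod_cast hb
  have hb0 : (0 : ℝ) < b := by linarith
  have hkr : (3 : ℝ) ≤ k := by exact_mod_cast b9
  have hk0 : (0 : ℝ) < k := by linarith
  have hk1r : (1 : ℝ) ≤ k := by linarith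
  obtain ⟨lk, hlk⟩ : ∃ lk, lk = Real.log k := ⟨_, rfl⟩
  rw [← hlk] at hy1 hy2 b5 b6 b6'
  have hlkκ : (κ.natAbs : ℝ) + 1 ≤ θ * lk := by
    have h1 : ((κ.natAbs : ℝ) + 1) / θ ≤ lk := (le_max_right _ _).trans b5
    rw [div_le_iff₀ hθ] at h1
    linarith
  have hlogb : 0.69 < Real.log b := by
    have := Real.log_two_gt_d9
    have := Real.log_le_log (by norm_num) hbr
    linarith
  have hl4 : lk ≤ lk ^ 4 := le_self_pow₀ b6' (by norm_num)
  have hlk2 : 2 * K₁ * lk ≤ k := by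
    refine le_trans ?_ b6
    have g1 : 2 * (K₁ : ℝ) ≤ max (2 * (K₁ : ℝ)) (W' / δ) := le_max_left _ _
    exact mul_le_mul g1 hl4 (by linarith) (le_trans (by positivity) g1)
  have hlk1 : 0 ≤ lk := by linarith [(le_max_left _ _).trans b5]
  have hlkW' : W' * lk ≤ δ * k := by
    have g1 : (W' : ℝ) / δ ≤ max (2 * (K₁ : ℝ)) (W' / δ) := le_max_right _ _
    have g2 : (W' : ℝ) / δ * lk ≤ k := le_trans (mul_le_mul g1 hl4 (by linarith) (le_trans (by positivity) g1)) b6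
    have g3 := mul_le_mul_of_nonneg_left g2 hδ0.le
    refine le_trans (le_of_eq ?_) g3
    field_simp
  have hW'r : (W' : ℝ) = W + 2 * (A + C + 3) := by rw [hW']; push_cast; ring
  have hlkW : W * lk ≤ δ * k := by
    refine le_trans ?_ hlkW'
    apply mul_le_mul_of_nonneg_right _ hlk1
    rw [hW'r]
    have : (0 : ℝ) ≤ 2 * (A + C + 3) := by positivity
    linarith
  have hlkZ : 2 * (A + C + 3 : ℝ) * lk ≤ δ * k := by
    refine le_trans ?_ hlkW'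
    apply mul_le_mul_of_nonneg_right _ hlk1
    rw [hW'r]
    have : (0 : ℝ) ≤ W := Nat.cast_nonneg _
    linarith
  -- the number of digits
  obtain ⟨e, he⟩ : ∃ e, e = ex b J₂ e₀ k := ⟨_, rfl⟩
  obtain ⟨K, hK⟩ : ∃ K, K = k + e := ⟨_, rfl⟩
  have heW : (e : ℝ) ≤ W * lk := by
    rw [he, hW, hlk]
    exact ex_le b J₂ e₀ hb k b9
  have hKk : k ≤ K := by omega
  have hKr : (K : ℝ) ≤ (1 + δ) * k := by
    rw [hK]
    push_cast
    linarith
  have hK1 : (1 : ℝ) ≤ K := by exact_mod_cast (by omega : 1 ≤ K)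
  have hlogK : Real.log ((b ^ K : ℕ) : ℝ) = K * Real.log b := by
    push_cast
    rw [Real.log_pow]
  have hlogK1 : 2 ≤ Real.log ((b ^ K : ℕ) : ℝ) := by
    rw [hlogK]
    have : (3 : ℝ) ≤ K := by exact_mod_cast (by omega : 3 ≤ K)
    nlinarith
  have hlogK2 : Real.log ((b ^ K : ℕ) : ℝ) ≤ (k : ℝ) ^ 2 := by
    rw [hlogK]
    have hlkk : lk ≤ k := by
      rw [hlk]
      exact (Real.log_le_sub_one_of_pos hk0).trans (by linarith)
    have g1 : (K : ℝ) ≤ (1 + W) * k := by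
      rw [hK]
      push_cast
      have : (W : ℝ) * lk ≤ W * k := mul_le_mul_of_nonneg_left hlkk (Nat.cast_nonneg _)
      linarith
    calc (K : ℝ) * Real.log b ≤ ((1 + W) * k) * Real.log b := mul_le_mul_of_nonneg_right g1 (by linarith)
      _ = ((1 + W) * Real.log b) * k := by ring
      _ ≤ k * k := mul_le_mul_of_nonneg_right b7 hk0.le
      _ = _ := (sq _).symm
  have hlogK3 : k * 0.69 ≤ Real.log ((b ^ K : ℕ) : ℝ) := by
    rw [hlogK]
    have : (k : ℝ) ≤ K := by exact_mod_cast hKk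
    nlinarith
  have hlogK4 : Real.log ((b ^ K : ℕ) : ℝ) ≤ (1 + δ) * (k * Real.log b) := by
    rw [hlogK]
    have := mul_le_mul_of_nonneg_right hKr (by linarith : 0 ≤ Real.log b)
    linarith
  obtain ⟨LK, hLK⟩ : ∃ LK, LK = Real.log ((b ^ K : ℕ) : ℝ) := ⟨_, rfl⟩
  rw [← hLK] at hlogK1 hlogK2 hlogK3 hlogK4
  -- z
  obtain ⟨z, hzd⟩ : ∃ z, z = ⌈LK ^ (B' + 1)⌉₊ := ⟨_, rfl⟩
  have hz1 : LK ^ (B' + 1) ≤ z := by rw [hzd]; exact Nat.le_ceil _
  have hz1' : LK ^ B' ≤ z := (pow_le_pow_right₀ (by linarith) (by omega)).trans hz1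
  have hz2 : (z : ℝ) ≤ LK ^ (B' + 2) := by
    have h1 : (z : ℝ) < LK ^ (B' + 1) + 1 := by rw [hzd]; exact Nat.ceil_lt_add_one (by positivity)
    have h2 : LK ^ (B' + 2) = LK ^ (B' + 1) * LK := pow_succ _ _
    have h3 : 1 ≤ LK ^ (B' + 1) := one_le_pow₀ (by linarith)
    have h4 : LK ^ (B' + 1) * 2 ≤ LK ^ (B' + 1) * LK := mul_le_mul_of_nonneg_left hlogK1 (by linarith)
    rw [h2]
    linarith
  have hz3 : (z : ℝ) ≤ (k : ℝ) ^ (2 * (B' + 2)) := by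
    rw [pow_mul]
    exact hz2.trans (pow_le_pow_left₀ (by linarith) hlogK2 _)
  have hzL : LK ≤ z := by
    have : LK ≤ LK ^ (B' + 1) := le_self_pow₀ (by linarith) (by omega)
    exact this.trans hz1
  have hyz : y ≤ z := by
    have : (y : ℝ) ≤ z := by linarith
    exact_mod_cast this
  have hyκ : κ.natAbs < y := by
    have : (κ.natAbs : ℝ) < y := by linarith
    exact_mod_cast this
  -- the multiplier
  obtain ⟨M, hM⟩ : ∃ M, M = primorial y := ⟨_, rfl⟩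
  have hM1 : 1 ≤ M := by rw [hM]; exact primorial_pos y
  have hMk : M ≤ k ^ (2 * K₁) := by
    have : (M : ℝ) ≤ (k : ℝ) ^ (2 * K₁) := by
      rw [hM]
      apply primorial_le_log K₁ y (k : ℝ) (by linarith [Real.exp_one_lt_d9])
      rw [← hlk]
      exact hy2
    exact_mod_cast this
  rw [← hM]
  obtain ⟨h', hh'⟩ : ∃ h', h' = M * h := ⟨_, rfl⟩
  rw [← hh']
  have hh'1 : 1 ≤ h' := by rw [hh']; exact Nat.mul_pos hM1 hh1
  have hh'J : h' ≤ k ^ J₁ := by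
    rw [hh', hJ₁, Nat.add_comm, pow_add]
    exact Nat.mul_le_mul hMk hhJ
  -- the primes
  obtain ⟨P, hPd⟩ : ∃ P, P = (mid y z).filter (fun q : ℕ => ¬ (q : ℤ) ∣ (h' : ℤ) * κ) := ⟨_, rfl⟩
  have hP : P ⊆ mid y z := by rw [hPd]; exact filter_subset _ _
  have hPα : ∀ q ∈ P, ¬ (q : ℤ) ∣ (h' : ℤ) * κ := fun q hq => by
    rw [hPd, mem_filter] at hq
    exact hq.2
  have hPd' : ∀ q : ℕ, q.Prime → q ≤ z → q ∉ P → q ∣ h' := by
      intro q hq hqz hqP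
      by_cases hqy : y < q
      · have h1 : (q : ℤ) ∣ (h' : ℤ) * κ := by
          by_contra hcon
          apply hqP
          rw [hPd, mem_filter]
          exact ⟨mem_mid.2 ⟨hqy, hqz, hq⟩, hcon⟩
        rcases (Nat.prime_iff_prime_int.1 hq).dvd_or_dvd h1 with h2 | h2
        · exact_mod_cast h2
        · exfalso
          have h3 : q ∣ κ.natAbs := Int.natCast_dvd.1 h2
          have h4 := Nat.le_of_dvd (Int.natAbs_pos.2 hκ) h3
          omega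
      · rw [hh', hM]
        exact (hq.dvd_primorial_iff.2 (by omega)).mul_right _
  have hPc : ∀ v : ℕ, ∀ q : ℕ, q.Prime → q ≤ z → q ∉ P → (q : ℤ) ∣ (h' : ℤ) * (c + κ * (v : ℕ)) := by
    intro v q hq hqz hqP
    exact (by exact_mod_cast hPd' q hq hqz hqP : (q : ℤ) ∣ (h' : ℤ)).mul_right _
  have hSq : ∀ s ∈ S, ∀ q : ℕ, q.Prime → q ≤ z → q ∉ P → ¬ q ∣ s := by
    intro s hs q hq hqz hqP hqs
    exact hq.one_lt.ne' (Nat.dvd_one.1 (by
      have h1 := Nat.dvd_gcd hqs (hPd' q hq hqz hqP)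
      rwa [hh', hM, Nat.Coprime.gcd_eq_one (hSp s hs)] at h1))
  have hPup : VP P ≤ (1 + δ) * Vm y z := by
    apply hk8 k (by omega) y z (by rw [← hlk]; exact hy1) h hh1 hhJ P hP
    intro q hq hqP
    obtain ⟨q1, q2, q3⟩ := mem_mid.1 hq
    have h1 := hPd' q q3 q2 hqP
    rw [hh', hM, q3.dvd_mul] at h1
    rcases h1 with h1 | h1
    · exfalso
      have := (q3.dvd_primorial_iff.1 h1)
      omega
    · exact h1
  -- sizes
  have hbk1 : (1 : ℝ) ≤ (b : ℝ) ^ k := one_le_pow₀ (by linarith)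
  have hbk0 : (0 : ℝ) < (b : ℝ) ^ k := by linarith
  have hkw : (k : ℝ) ^ w ≤ (b : ℝ) ^ k := by exact_mod_cast b4
  have hX1r : (b : ℝ) ^ k ≤ X * (k : ℝ) ^ C := by exact_mod_cast hX1
  have hscard : (b : ℝ) ^ k ≤ S.card * (k : ℝ) ^ (A + C) := by
    calc (b : ℝ) ^ k ≤ X * (k : ℝ) ^ C := hX1r
      _ ≤ (S.card * (k : ℝ) ^ A) * (k : ℝ) ^ C := mul_le_mul_of_nonneg_right hSA (by positivity)
      _ = _ := by rw [pow_add]; ring
  have hΓ1 : 1 ≤ Γ := by rw [hΓ]; exact one_le_pow₀ (by linarith)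
  have hkδ : 8 * Γ ≤ δ ^ 2 * k := by
    rw [div_le_iff₀ (by positivity)] at b8
    linarith
  have hδ2 : δ ^ 2 ≤ δ := by nlinarith
  have hkδ' : 8 * Γ ≤ δ * k := hkδ.trans (mul_le_mul_of_nonneg_right hδ2 hk0.le)
  have hSbig : (k : ℝ) ^ (2 * (B' + 2) + 9) ≤ S.card := by
    have h1 : (k : ℝ) ^ (2 * (B' + 2) + 9) * (k : ℝ) ^ (A + C) ≤ S.card * (k : ℝ) ^ (A + C) := by
      refine le_trans ?_ (hkw.trans hscard)
      rw [← pow_add]
      exact pow_le_pow_right₀ hk1r (by omega)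
    exact le_of_mul_le_mul_right h1 (by positivity)
  obtain ⟨m, hm⟩ : ∃ m : ℝ, m = S.card := ⟨_, rfl⟩
  have hmbig1 : (b : ℝ) ^ k ≤ m * (k : ℝ) ^ (A + C) := by
    rw [hm]
    exact hscard
  have hm5 : (k : ℝ) ^ 5 ≤ m := by
    rw [hm]
    exact (pow_le_pow_right₀ hk1r (by omega)).trans hSbig
  have hm0 : 0 < m := lt_of_lt_of_le (by positivity) hm5
  have hmbig : (b : ℝ) ^ k ≤ 2 * m * (k : ℝ) ^ (A + C) := by
    refine hmbig1.trans ?_
    apply mul_le_mul_of_nonneg_right _ (by positivity)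
    linarith
  -- the small values
  obtain ⟨Zr, hZr⟩ : ∃ Zr : ℝ, Zr = (b : ℝ) ^ k / (k : ℝ) ^ (A + C + 3) := ⟨_, rfl⟩
  have hZr1 : 1 ≤ Zr := by
    rw [hZr, one_le_div (by positivity)]
    exact (pow_le_pow_right₀ hk1r (by omega)).trans hkw
  obtain ⟨Z, hZ⟩ : ∃ Z, Z = ⌈Zr⌉₊ := ⟨_, rfl⟩
  have hZ1 : Zr ≤ Z := by rw [hZ]; exact Nat.le_ceil _
  have hZ2 : (Z : ℝ) ≤ 2 * Zr := by
    have h1 : (Z : ℝ) < Zr + 1 := by rw [hZ]; exact Nat.ceil_lt_add_one (by linarith)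
    linarith
  have hZ3 : 1 ≤ Z := by
    have : (1 : ℝ) ≤ Z := hZr1.trans hZ1
    exact_mod_cast this
  have hlb0 : 0 < Real.log b := by linarith
  have hZlog : (1 - δ) * (k * Real.log b) ≤ Real.log Z := by
    have h1 : Real.log Zr ≤ Real.log Z := Real.log_le_log (by linarith) hZ1
    refine le_trans ?_ h1
    rw [hZr, Real.log_div (by positivity) (by positivity), Real.log_pow, Real.log_pow, ← hlk]
    push_cast
    have h2 : δ * k * 0.5 ≤ δ * k * Real.log b := mul_le_mul_of_nonneg_left (by linarith) (by positivity)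
    linarith
  have hlbk : Real.log b ≤ k := by
    have : (0 : ℝ) ≤ W * Real.log b := by positivity
    linarith
  have hZS : (Z : ℝ) * (Vz y * (k * Real.log b)) ≤ δ * m := by
    have h1 : Vz y * (k * Real.log b) ≤ (k : ℝ) ^ 2 := by
      have g1 : (k : ℝ) * Real.log b ≤ k ^ 2 := by
        rw [sq]
        exact mul_le_mul_of_nonneg_left hlbk hk0.le
      have g2 : Vz y * (k * Real.log b) ≤ 1 * (k * Real.log b) := mul_le_mul_of_nonneg_right (Vz_le_one y) (by positivity)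
      linarith
    have h2 : (Z : ℝ) * (Vz y * (k * Real.log b)) ≤ (2 * Zr) * (k : ℝ) ^ 2 :=
      mul_le_mul hZ2 h1 (mul_nonneg (Vz_pos y).le (by positivity)) (by linarith)
    refine h2.trans ?_
    have h3 : ((2 * Zr) * (k : ℝ) ^ 2) * (k : ℝ) ^ (A + C + 1) ≤ (δ * m) * (k : ℝ) ^ (A + C + 1) := by
      have e : ((2 * Zr) * (k : ℝ) ^ 2) * (k : ℝ) ^ (A + C + 1) = 2 * (b : ℝ) ^ k := by
        rw [hZr, show A + C + 3 = 2 + (A + C + 1) by ring, pow_add (k : ℝ) 2]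
        field_simp
      rw [e]
      calc 2 * (b : ℝ) ^ k ≤ (δ * k) * (b : ℝ) ^ k := mul_le_mul_of_nonneg_right (by linarith) hbk0.le
        _ ≤ (δ * k) * (m * (k : ℝ) ^ (A + C)) := mul_le_mul_of_nonneg_left hmbig1 (by positivity)
        _ = _ := by rw [pow_succ]; ring
    exact le_of_mul_le_mul_right h3 (by positivity)
  have hbK : ((b ^ K : ℕ) : ℝ) ≤ (b : ℝ) ^ k * ((k : ℝ) ^ J₂ * Γ) := by
    have g1 : (b : ℝ) ^ (Nat.log b k) ≤ k := by exact_mod_cast Nat.pow_log_le_self b (by omega)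
    have e1 : ((b ^ K : ℕ) : ℝ) = (b : ℝ) ^ k * (((b : ℝ) ^ (Nat.log b k)) ^ J₂ * Γ) := by
      rw [hΓ, hK, he]
      unfold ex
      push_cast
      rw [← pow_mul, ← pow_add, ← pow_add]
      congr 1
      ring
    rw [e1]
    apply mul_le_mul_of_nonneg_left _ hbk0.le
    apply mul_le_mul_of_nonneg_right _ (by linarith)
    exact pow_le_pow_left₀ (by positivity) g1 _
  -- values
  have hbK2 : ((B : ℤ) + κ.natAbs + 3) * ((b : ℤ) ^ k * (k : ℤ) ^ J₂) ≤ (b : ℤ) ^ K := by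
    have g1 : k ^ J₂ ≤ b ^ (J₂ * (Nat.log b k + 1)) := pow_ex b J₂ hb k
    have g2 : B + κ.natAbs + 3 ≤ b ^ e₀ := by
      have : e₀ < b ^ e₀ := Nat.lt_pow_self (by omega)
      omega
    have g3 : (B + κ.natAbs + 3) * (b ^ k * k ^ J₂) ≤ b ^ K := by
      calc (B + κ.natAbs + 3) * (b ^ k * k ^ J₂) ≤ b ^ e₀ * (b ^ k * b ^ (J₂ * (Nat.log b k + 1))) :=
            Nat.mul_le_mul g2 (Nat.mul_le_mul_left _ g1)
        _ = b ^ K := by
            rw [hK, he]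
            unfold ex
            rw [← pow_add, ← pow_add]
            congr 1
            ring
    exact_mod_cast g3
  have hYX : ∀ v ∈ range (b ^ k), (X : ℤ) + |(h' : ℤ) * (c + κ * (v : ℕ))| + 1 < (b : ℤ) ^ K := by
    intro v hv
    rw [mem_range] at hv
    refine lt_of_lt_of_le ?_ hbK2
    have g0 : (0 : ℤ) ≤ (v : ℤ) := Int.natCast_nonneg _
    have g1 : (v : ℤ) ≤ (b : ℤ) ^ k := by exact_mod_cast hv.le
    have g2 : |c + κ * (v : ℤ)| ≤ ((B : ℤ) + κ.natAbs) * (b : ℤ) ^ k := by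
      have q1 := abs_add_le c (κ * (v : ℤ))
      have q3 : |κ * (v : ℤ)| ≤ (κ.natAbs : ℤ) * (b : ℤ) ^ k := by
        rw [abs_mul, Int.abs_eq_natAbs κ, abs_of_nonneg g0]
        exact mul_le_mul_of_nonneg_left g1 (Int.natCast_nonneg _)
      linarith
    have g3 : (h' : ℤ) ≤ (k : ℤ) ^ J₂ := by
      have : h' ≤ k ^ J₂ := hh'J.trans (Nat.pow_le_pow_right (by omega) (by omega))
      exact_mod_cast this
    have g4 : |(h' : ℤ) * (c + κ * (v : ℕ))| ≤ (k : ℤ) ^ J₂ * (((B : ℤ) + κ.natAbs) * (b : ℤ) ^ k) := by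
      rw [abs_mul, Nat.abs_cast]
      exact mul_le_mul g3 g2 (abs_nonneg _) (by positivity)
    have g5 : (X : ℤ) ≤ (b : ℤ) ^ k * (k : ℤ) ^ J₂ := by
      have : X ≤ b ^ k * k ^ J₂ := hX2.trans (Nat.mul_le_mul_left _ (Nat.pow_le_pow_right (by omega) (by omega)))
      exact_mod_cast this
    have g6 : (1 : ℤ) ≤ (b : ℤ) ^ k * (k : ℤ) ^ J₂ := by
      have : 0 < b ^ k * k ^ J₂ := by positivity
      exact_mod_cast this
    nlinarith
  have hXK : (X : ℤ) + 1 < (b : ℤ) ^ K := by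
    have h1 := hYX 0 (mem_range.2 (by positivity))
    have h2 := abs_nonneg ((h' : ℤ) * (c + κ * ((0 : ℕ) : ℕ)))
    linarith
  -- the law
  have hlawk := hlaw k b1 e (by rw [← hlk]; exact heW) h' hh'1 (by
    refine (log_ex b J₁ Fκ hb k h' hF1 hh'1 hh'J).trans ?_
    rw [he, he₀]
    unfold ex
    have : J₁ * (Nat.log b k + 1) ≤ J₂ * (Nat.log b k + 1) := Nat.mul_le_mul_right _ (by omega)
    omega) p hp c
  rw [← hK] at hlawk
  have hT := hk1 K (by omega) z (by rw [← hLK]; exact hz1') (by rw [← hLK]; exact hz2) (range (b ^ k)) p _ hlawk X hYX hXK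
    (fun n => if n ∈ S then 1 else 0) (by
      intro n _
      split_ifs <;> norm_num) σ hσ
  have hR := hk2 k b3 p hp y z (by rw [← hlk]; exact hy1) hyz hz3 P hP X S hS hSA
    (by rw [← hm]; exact hm5) ((h' : ℤ) * κ) (fun s => (h' : ℤ) * c + σ * (s : ℕ)) hPα (by
    intro s _ t _ q v h1 h2
    apply Dvd.dvd.mul_right
    apply dvd_dist
    have h3 := dvd_sub h1 h2
    have h4 : (h' : ℤ) * κ * (v : ℕ) + ((h' : ℤ) * c + σ * (s : ℕ)) - ((h' : ℤ) * κ * (v : ℕ) + ((h' : ℤ) * c + σ * (t : ℕ))) =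
        σ * ((s : ℤ) - t) := by ring
    rw [h4] at h3
    rcases hσ with rfl | rfl
    · rwa [one_mul] at h3
    · rw [neg_one_mul] at h3
      exact dvd_neg.1 h3)
  have hbKn : ((b ^ K : ℕ) : ℝ) / (K : ℝ) ^ U ≤ δ * (δ * m) := by
    have hKU : (k : ℝ) ^ U ≤ (K : ℝ) ^ U := pow_le_pow_left₀ hk0.le (by exact_mod_cast hKk) _
    rw [div_le_iff₀ (by positivity)]
    calc ((b ^ K : ℕ) : ℝ) ≤ (b : ℝ) ^ k * ((k : ℝ) ^ J₂ * Γ) := hbK
      _ ≤ (2 * m * (k : ℝ) ^ (A + C)) * ((k : ℝ) ^ J₂ * Γ) := mul_le_mul_of_nonneg_right hmbig (by positivity)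
      _ = m * (k : ℝ) ^ (J₂ + A + C) * (2 * Γ) := by rw [add_assoc J₂, pow_add (k : ℝ) J₂]; ring
      _ ≤ m * (k : ℝ) ^ (J₂ + A + C) * (δ ^ 2 * k) := by
          apply mul_le_mul_of_nonneg_left _ (by positivity)
          linarith
      _ = δ * (δ * m) * (k : ℝ) ^ U := by rw [hU, pow_succ]; ring
      _ ≤ _ := mul_le_mul_of_nonneg_left hKU (by positivity)
  have hpp : 2 * √((b ^ K : ℕ) : ℝ) * Real.log ((b ^ K : ℕ) : ℝ) ≤ δ * m := by
    rw [← hLK]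
    have g1 : √((b ^ K : ℕ) : ℝ) ≤ √((b : ℝ) ^ k) * ((k : ℝ) ^ J₂ * Γ) := by
      have q1 : 1 ≤ (k : ℝ) ^ J₂ * Γ := one_le_mul_of_one_le_of_one_le (one_le_pow₀ hk1r) hΓ1
      have q2 : √((b ^ K : ℕ) : ℝ) ≤ √((b : ℝ) ^ k * ((k : ℝ) ^ J₂ * Γ)) := Real.sqrt_le_sqrt hbK
      rw [Real.sqrt_mul hbk0.le] at q2
      have q3 : √((k : ℝ) ^ J₂ * Γ) ≤ (k : ℝ) ^ J₂ * Γ := by
        rw [Real.sqrt_le_left (by positivity)]
        exact le_self_pow₀ q1 (by norm_num)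
      exact q2.trans (mul_le_mul_of_nonneg_left q3 (Real.sqrt_nonneg _))
    have g2 : (k : ℝ) ^ (J₂ + A + C + 3) ≤ √((b : ℝ) ^ k) := by
      apply Real.le_sqrt_of_sq_le
      rw [← pow_mul]
      exact (pow_le_pow_right₀ hk1r (by omega)).trans hkw
    have hsq : √((b : ℝ) ^ k) * √((b : ℝ) ^ k) = (b : ℝ) ^ k := Real.mul_self_sqrt hbk0.le
    have hs0 : 0 ≤ √((b : ℝ) ^ k) := Real.sqrt_nonneg _
    -- the product
    have g3 : (2 * √((b ^ K : ℕ) : ℝ) * LK) * (2 * (k : ℝ) ^ (A + C)) ≤ δ * (b : ℝ) ^ k := by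
      calc (2 * √((b ^ K : ℕ) : ℝ) * LK) * (2 * (k : ℝ) ^ (A + C))
          ≤ (2 * (√((b : ℝ) ^ k) * ((k : ℝ) ^ J₂ * Γ)) * (k : ℝ) ^ 2) * (2 * (k : ℝ) ^ (A + C)) := by
            apply mul_le_mul_of_nonneg_right _ (by positivity)
            apply mul_le_mul _ hlogK2 (by linarith) (by positivity)
            exact mul_le_mul_of_nonneg_left g1 (by norm_num)
        _ = √((b : ℝ) ^ k) * ((k : ℝ) ^ (J₂ + A + C + 2) * (4 * Γ)) := by
            rw [show J₂ + A + C + 2 = J₂ + (A + C) + 2 by ring, pow_add (k : ℝ) (J₂ + (A + C)), pow_add (k : ℝ) J₂]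
            ring
        _ ≤ √((b : ℝ) ^ k) * ((k : ℝ) ^ (J₂ + A + C + 2) * (δ * k)) := by
            apply mul_le_mul_of_nonneg_left _ hs0
            apply mul_le_mul_of_nonneg_left _ (by positivity)
            linarith
        _ = δ * (√((b : ℝ) ^ k) * (k : ℝ) ^ (J₂ + A + C + 3)) := by
            rw [pow_succ (k : ℝ) (J₂ + A + C + 2)]
            ring
        _ ≤ δ * (√((b : ℝ) ^ k) * √((b : ℝ) ^ k)) := by
            apply mul_le_mul_of_nonneg_left _ hδ0.le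
            exact mul_le_mul_of_nonneg_left g2 hs0
        _ = _ := by rw [hsq]
    have g4 : (2 * √((b ^ K : ℕ) : ℝ) * LK) * (2 * (k : ℝ) ^ (A + C)) ≤ (δ * m) * (2 * (k : ℝ) ^ (A + C)) := by
      calc _ ≤ δ * (b : ℝ) ^ k := g3
        _ ≤ δ * (2 * m * (k : ℝ) ^ (A + C)) := mul_le_mul_of_nonneg_left hmbig hδ0.le
        _ = _ := by ring
    exact le_of_mul_le_mul_right g4 (by positivity)
  -- the bad events
  obtain ⟨Q1, hQ1⟩ : ∃ Q1 : ℕ → Prop, ∀ v, Q1 v ↔ (δ * (S.card * VP P) < |((S.filter (fun s => ∀ q ∈ P, ¬ (q : ℤ) ∣ (h' : ℤ) * κ * (v : ℕ) +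
    ((h' : ℤ) * c + σ * (s : ℕ)))).card : ℝ) - S.card * VP P|) := ⟨_, fun _ => Iff.rfl⟩
  obtain ⟨D, hD⟩ : ∃ D : ℕ → ℝ, ∀ v, D v = |∑ n ∈ Icc 1 X, (if n ∈ S then (1 : ℝ) else 0) *
    (lamI ((h' : ℤ) * (c + κ * (v : ℕ)) + σ * (n : ℕ)) - lamzI z ((h' : ℤ) * (c + κ * (v : ℕ)) + σ * (n : ℕ)))| := ⟨_, fun _ => rfl⟩
  have s1 : ∑ v ∈ range (b ^ k), (if Q1 v then p v else 0) ≤ δ := by
    refine le_trans (le_of_eq ?_) hR
    apply sum_congr rfl
    intro v _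
    by_cases hq : Q1 v
    · rw [if_pos hq, if_pos ((hQ1 v).1 hq)]
    · rw [if_neg hq, if_neg (fun h => hq ((hQ1 v).2 h))]
  have s2 : ∑ v ∈ range (b ^ k), (if δ * m < D v then p v else 0) ≤ δ := by
    have h1 : (∑ v ∈ range (b ^ k), (if δ * m < D v then p v else 0)) * (δ * m) ≤ δ * (δ * m) := by
      refine le_trans ?_ (hT.trans hbKn)
      rw [sum_mul]
      apply sum_le_sum
      intro v _
      rw [← hD]
      have hD0 : 0 ≤ D v := by rw [hD]; exact abs_nonneg _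
      split_ifs with hv
      · exact mul_le_mul_of_nonneg_left hv.le ((hC.nonneg _ _ hp) v)
      · rw [zero_mul]
        exact mul_nonneg ((hC.nonneg _ _ hp) v) hD0
    exact le_of_mul_le_mul_right h1 (by positivity)
  have hle2 : δ + δ ≤ ε := by rw [hδ]; linarith
  refine le_trans ?_ (le_trans (add_le_add s1 s2) hle2)
  rw [← sum_add_distrib]
  apply sum_le_sum
  intro v hv
  have hpv := (hC.nonneg _ _ hp) v
  obtain ⟨Bad, hBad⟩ : ∃ Bad : Prop, Bad ↔ ((∀ s ∈ S, 0 < (h' : ℤ) * (c + κ * (v : ℕ)) + σ * (s : ℕ)) ∧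
      ε * (S.card / (Vz y * (k * Real.log b))) <
      |((S.filter (fun s => ((h' : ℤ) * (c + κ * (v : ℕ)) + σ * (s : ℕ)).toNat.Prime)).card : ℝ) -
      S.card / (Vz y * (k * Real.log b))|) := ⟨_, Iff.rfl⟩
  have hgoal : (if Bad then p v else 0) ≤ (if Q1 v then p v else 0) + (if δ * m < D v then p v else 0) := by
    by_cases hq1 : Q1 v
    · rw [if_pos hq1]
      have h1 : (if Bad then p v else 0) ≤ p v := by
        split_ifs
        · exact le_rfl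
        · exact hpv
      have h2 : 0 ≤ (if δ * m < D v then p v else 0) := by
        split_ifs
        · exact hpv
        · exact le_rfl
      linarith
    · by_cases hq2 : δ * m < D v
      · rw [if_neg hq1, if_pos hq2, zero_add]
        split_ifs
        · exact le_rfl
        · exact hpv
      · rw [if_neg hq1, if_neg hq2, add_zero]
        rw [if_neg]
        rw [hBad]
        rintro ⟨hpos, hfew⟩
        rw [hQ1] at hq1
        push Not at hq1 hq2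
        rw [hD] at hq2
        have hform : ∀ s : ℕ, (h' : ℤ) * κ * (v : ℕ) + ((h' : ℤ) * c + σ * (s : ℕ)) = (h' : ℤ) * (c + κ * (v : ℕ)) + σ * (s : ℕ) := by
          intro s
          ring
        simp_rw [hform] at hq1
        have hasm := assemble2 X y z δ hδ0 hδ8 hyz P hP hPup ((h' : ℤ) * (c + κ * (v : ℕ))) σ hσ S hS hSq
          (hPc v) hpos (b ^ K) (Nat.one_le_pow _ _ (by omega)) (by
            intro s hs
            have q1 := hYX v hv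
            have q2 := (mem_Icc.1 (hS hs)).2
            have q3 := le_abs_self ((h' : ℤ) * (c + κ * (v : ℕ)))
            have q4 : σ * (s : ℕ) ≤ X := by
              rcases hσ with rfl | rfl
              · rw [one_mul]; exact_mod_cast q2
              · rw [neg_one_mul]
                have : (0 : ℤ) ≤ (s : ℕ) := Int.natCast_nonneg _
                have : (0 : ℤ) ≤ (X : ℕ) := Int.natCast_nonneg _
                linarith
            push_cast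
            linarith) (k * Real.log b) (by positivity) (by rw [← hLK]; exact hlogK4) Z hZ3 hZlog (by rw [← hm]; exact hZS)
            (by rw [← hm]; exact hpp) hq1 (by rw [← hm]; exact hq2)
        have he8 : 8 * δ = ε := by rw [hδ]; ring
        rw [he8] at hasm
        linarith
  exact (by
    refine le_trans (le_of_eq ?_) hgoal
    by_cases hb : Bad
    · rw [if_pos hb, if_pos (hBad.1 hb)]
    · rw [if_neg hb, if_neg (fun h => hb (hBad.2 h))])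

end Pool.Agent.U710.XP
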