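import Pool.Agent.U710.XP.S
import Pool.Agent.U710.XP.F

set_option autoImplicit false

/-! Sums of an element of a dense set of primes and a prime: multiples of the integers near the values. -/

namespace Pool.Agent.U710.XP

open Finset Filter Topology
open Pool.Agent.U710.LE
open Pool.Agent.H373R2.T7 (Vz Vz_pos)

/-- the scale: from `log N`, `N` the size of the values, to the number of the digits -/
theorem scales (J C : ℕ) (ε : ℝ) (hε : 0 < ε) : ∃ N₀ : ℕ, ∀ N : ℕ, N₀ ≤ N →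
    4 ≤ N ∧ 1 ≤ Real.log N ∧ Real.log N ≤ dg N ∧ Real.log (dg N) ≤ 2 * Real.log (Real.log N) ∧
    Real.log (Real.log N) ≤ Real.log (dg N) ∧
    (1 - ε) * (dg N * Real.log 2) ≤ (1 - ε / 2) * Real.log N ∧
    (∀ h : ℕ, (h : ℝ) ≤ Real.log N ^ J → h ≤ dg N ^ J) ∧
    (∀ X : ℕ, (N : ℝ) ≤ X * Real.log N ^ C → 2 ^ dg N ≤ X * dg N ^ (C + 1)) ∧
    (∀ X : ℕ, (X : ℝ) ≤ N * Real.log N ^ C → X ≤ 2 ^ dg N * dg N ^ (C + 1)) := by
  obtain ⟨N₁, hN₁⟩ := eventually_atTop.1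
    ((Real.tendsto_log_atTop.comp (tendsto_natCast_atTop_atTop (R := ℝ))).eventually
      (eventually_ge_atTop (max 3 (2 / ε))))
  refine ⟨N₁ + 4, fun N hN => ?_⟩
  have b1 := hN₁ N (by omega)
  simp only [Function.comp_apply] at b1
  have b2 : 3 ≤ Real.log N := (le_max_left _ _).trans b1
  have b3 : 2 / ε ≤ Real.log N := (le_max_right _ _).trans b1
  have hN4 : 4 ≤ N := by omega
  have c1 := log_le_dg N (by omega)
  have c2 := dg_le_log N (by omega)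
  obtain ⟨L, hL⟩ : ∃ L, L = Real.log N := ⟨_, rfl⟩
  rw [← hL] at b2 b3 c1 c2 ⊢
  obtain ⟨d, hd⟩ : ∃ d, d = dg N := ⟨_, rfl⟩
  have hdl := dg_log N hN4
  rw [← hd] at c1 c2 hdl ⊢
  rw [← hL] at hdl
  have hL0 : 0 < L := by linarith
  have hd1 : (1 : ℝ) ≤ d := by linarith
  have hd0 : (0 : ℝ) < d := by linarith
  have hd2 : 2 ≤ d := by
    have : (2 : ℝ) ≤ d := by linarith
    exact_mod_cast this
  refine ⟨hN4, by linarith, c1, ?_, Real.log_le_log hL0 c1, ?_, fun h hh => ?_, fun X hX => ?_, fun X hX => ?_⟩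
  · have h1 : (d : ℝ) ≤ L ^ 2 := by nlinarith
    have h2 := Real.log_le_log hd0 h1
    rwa [Real.log_pow] at h2
  · have h1 : Real.log 2 ≤ 1 := by linarith [Real.log_two_lt_d9]
    have h2 : 2 ≤ L * ε := by rwa [div_le_iff₀ hε] at b3
    rcases le_or_gt ε 1 with h3 | h3
    · have h4 : (1 - ε) * (d * Real.log 2) ≤ (1 - ε) * (L + Real.log 2) := mul_le_mul_of_nonneg_left hdl.2 (by linarith)
      nlinarith
    · rcases le_or_gt ε 2 with h4 | h4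
      · have h5 : 0 ≤ (1 - ε / 2) * L := mul_nonneg (by linarith) hL0.le
        have h6 : (1 - ε) * (d * Real.log 2) ≤ 0 := mul_nonpos_of_nonpos_of_nonneg (by linarith) (by positivity)
        linarith
      · have h6 : (1 - ε) * (d * Real.log 2) ≤ (1 - ε) * L := mul_le_mul_of_nonpos_left hdl.1 (by linarith)
        have h7 : (1 - ε) * L ≤ (1 - ε / 2) * L := mul_le_mul_of_nonneg_right (by linarith) hL0.le
        linarith
  · have h1 : (h : ℝ) ≤ (d : ℝ) ^ J := hh.trans (pow_le_pow_left₀ hL0.le c1 J)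
    exact_mod_cast h1
  · have h1 : (2 : ℝ) ^ d ≤ 2 * N := by
      rw [hd]
      exact_mod_cast dg_le N (by omega)
    have h2 : (2 : ℝ) ^ d ≤ X * (d : ℝ) ^ (C + 1) := by
      calc (2 : ℝ) ^ d ≤ 2 * N := h1
        _ ≤ d * (X * L ^ C) := mul_le_mul (by exact_mod_cast hd2) hX (Nat.cast_nonneg _) hd0.le
        _ ≤ d * (X * (d : ℝ) ^ C) := by
            apply mul_le_mul_of_nonneg_left _ hd0.le
            exact mul_le_mul_of_nonneg_left (pow_le_pow_left₀ hL0.le c1 C) (Nat.cast_nonneg _)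
        _ = X * (d : ℝ) ^ (C + 1) := by rw [pow_succ]; ring
    exact_mod_cast h2
  · have h1 : (N : ℝ) ≤ 2 ^ d := by
      rw [hd]
      exact_mod_cast (lt_dg N).le
    have h2 : (X : ℝ) ≤ 2 ^ d * (d : ℝ) ^ (C + 1) := by
      calc (X : ℝ) ≤ N * L ^ C := hX
        _ ≤ 2 ^ d * (d : ℝ) ^ C := mul_le_mul h1 (pow_le_pow_left₀ hL0.le c1 C) (by positivity) (by positivity)
        _ ≤ 2 ^ d * (d : ℝ) ^ (C + 1) := mul_le_mul_of_nonneg_left (pow_le_pow_right₀ hd1 (by omega)) (by positivity)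
    exact_mod_cast h2

open Classical in
/-- sums with one summand in an arbitrary dense set of primes, multiples of the integers near the values -/
theorem sum_near (α β γ : ℝ) (hα : 0 < α) (hγ1 : 1 < γ) (hγ2 : γ < 3 / 2) (κ : ℤ) (hκ : κ ≠ 0) (A B J C R D : ℕ) (ε : ℝ)
    (hε : 0 < ε) (hε1 : ε ≤ 1) : ∃ K₀ : ℕ, ∀ K₁ : ℕ, ∃ y₀ : ℕ, ∀ y w : ℕ, y₀ ≤ y →
    (y : ℝ) / Real.log y ^ A ≤ w → (w : ℝ) ≤ y / Real.log y → ∀ z : ℕ,
    K₀ * Real.log (Real.log ⌊ef α β γ y⌋₊) ≤ z → z ≤ K₁ * Real.log (Real.log ⌊ef α β γ y⌋₊) →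
    ∀ c : ℤ, |c| ≤ B * (⌊ef α β γ y⌋₊ : ℕ) → ∀ h : ℕ, 1 ≤ h → (h : ℝ) ≤ Real.log ⌊ef α β γ y⌋₊ ^ J →
    ∀ X : ℕ, (⌊ef α β γ y⌋₊ : ℝ) ≤ X * Real.log ⌊ef α β γ y⌋₊ ^ C → (X : ℝ) ≤ ⌊ef α β γ y⌋₊ * Real.log ⌊ef α β γ y⌋₊ ^ C →
    ∀ S : Finset ℕ, S ⊆ Icc 1 X → (∀ s ∈ S, s.Prime) → (X : ℝ) ≤ S.card * (dg ⌊ef α β γ y⌋₊ : ℝ) ^ D →
    (((Ioc (y - w) y).filter (fun m : ℕ => ¬ ∀ u : ℤ, |u - (c + κ * (⌊ef α β γ m⌋₊ : ℕ))| ≤ R →
      (X : ℤ) < ((primorial z * h : ℕ) : ℤ) * u →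
      (1 - ε) * (S.card / (Vz z * Real.log ⌊ef α β γ y⌋₊)) ≤
        ((S.filter (fun s => (((primorial z * h : ℕ) : ℤ) * u - (s : ℕ)).toNat.Prime)).card : ℝ))).card : ℝ) ≤ ε * w := by
  obtain ⟨ζ, σ, hζ, hζ1, hσ, hdist⟩ := ef_dist α β γ hα hγ1 hγ2 A
  obtain ⟨ε', hε'⟩ : ∃ ε' : ℝ, ε' = ε / (2 * (2 * R + 1)) := ⟨_, rfl⟩
  have hR1 : (1 : ℝ) ≤ 2 * R + 1 := by
    have : (0 : ℝ) ≤ R := Nat.cast_nonneg R
    linarith
  have he0 : 0 < ε' := by rw [hε']; positivity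
  have he2 : ε' ≤ ε / 2 := by
    rw [hε', ← div_div]
    exact div_le_self (by positivity) hR1
  obtain ⟨K₀, hK₀⟩ := dense_sum 2 0 le_rfl (LD ζ σ (A + 4)) (LD_scls ζ hζ hζ1 (A + 4) σ hσ) κ hκ (B + 1) J D (C + 1) ε' he0
    (by linarith)
  refine ⟨2 * K₀, fun K₁ => ?_⟩
  obtain ⟨k₀, hk₀⟩ := hK₀ K₁
  obtain ⟨N₀, hN₀⟩ := scales J C ε hε
  obtain ⟨y₀, hy₀⟩ := hdist (k₀ + N₀ + R + 2)
  refine ⟨y₀, fun y w hy hw1 hw2 z hz1 hz2 c hc h hh1 hhJ X hX1 hX2 S hS hSp hSD => ?_⟩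
  obtain ⟨c1, c2, c3, c4, c5, c6, c7⟩ := hy₀ y w hy hw1 hw2
  obtain ⟨N, hN⟩ : ∃ N, N = ⌊ef α β γ y⌋₊ := ⟨_, rfl⟩
  rw [← hN] at hz1 hz2 hc hhJ hX1 hX2 hSD c3 c4 c5 c6 c7 ⊢
  have hNN : N₀ ≤ N := by
    have h1 : dg N ≤ N := by
      unfold dg
      have := Nat.log_lt_self 2 (show N ≠ 0 by omega)
      omega
    omega
  obtain ⟨s1, s2, s3, s4, s5, s6, s7, s8, s9⟩ := hN₀ N hNN
  obtain ⟨k, hk⟩ : ∃ k, k = dg N := ⟨_, rfl⟩
  rw [← hk] at hSD c4 c5 c6 c7 s3 s4 s5 s6 s7 s8 s9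
  have hw0 : (0 : ℝ) < w := by exact_mod_cast c1
  have hNk : N ≤ 2 ^ k := by rw [hk]; exact (lt_dg N).le
  have hRk : (R : ℤ) ≤ (2 : ℤ) ^ k := by
    have h1 : R ≤ 2 ^ k := (by omega : R ≤ k).trans (Nat.lt_pow_self (by norm_num)).le
    exact_mod_cast h1
  have hLL : 0 ≤ Real.log (Real.log N) := Real.log_nonneg s2
  have hz1' : K₀ * Real.log k ≤ z := by
    refine le_trans ?_ hz1
    push_cast
    have h1 : (K₀ : ℝ) * Real.log k ≤ K₀ * (2 * Real.log (Real.log N)) := mul_le_mul_of_nonneg_left s4 (Nat.cast_nonneg _)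
    linarith
  have hz2' : z ≤ K₁ * Real.log k := hz2.trans (mul_le_mul_of_nonneg_left s5 (Nat.cast_nonneg _))
  obtain ⟨Bad, hBad⟩ : ∃ Bad : ℤ → ℕ → Prop, ∀ i v, Bad i v ↔ ((X : ℤ) < ((primorial z * h : ℕ) : ℤ) * (c + i + κ * (v : ℕ)) ∧
      ((S.filter (fun s => (((primorial z * h : ℕ) : ℤ) * (c + i + κ * (v : ℕ)) - (s : ℕ)).toNat.Prime)).card : ℝ) <
      (1 - ε') * (S.card / (Vz z * (k * Real.log 2)))) := ⟨_, fun _ _ => Iff.rfl⟩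
  have hone : ∀ i ∈ Icc (-(R : ℤ)) R, (((Ioc (y - w) y).filter (fun m : ℕ => Bad i ⌊ef α β γ m⌋₊)).card : ℝ) ≤ ε' * w := by
    intro i hi
    rw [mem_Icc] at hi
    have hci : |c + i| ≤ ((B + 1 : ℕ) : ℤ) * ((2 : ℕ) : ℤ) ^ k := by
      have h1 : |i| ≤ R := abs_le.2 hi
      have h2 : (N : ℤ) ≤ (2 : ℤ) ^ k := by exact_mod_cast hNk
      have h3 : (B : ℤ) * N ≤ B * (2 : ℤ) ^ k := mul_le_mul_of_nonneg_left h2 (Nat.cast_nonneg _)
      push_cast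
      calc |c + i| ≤ |c| + |i| := abs_add_le _ _
        _ ≤ B * (2 : ℤ) ^ k + (2 : ℤ) ^ k := by linarith
        _ = _ := by ring
    have h1 := hk₀ k (by omega) (dist α β γ y w) c7 z hz1' hz2' (c + i) hci h hh1 (s7 h hhJ) X (s8 X hX1) (s9 X hX2) S hS hSp hSD
    refine dist_count α β γ ζ σ (A + 4) k y w c2 c6 (Bad i) ε' (le_trans (le_of_eq ?_) h1)
    refine sum_congr rfl fun v _ => ?_
    simp only [hBad]
    push_cast
    rfl
  have hsub : (Ioc (y - w) y).filter (fun m : ℕ => ¬ ∀ u : ℤ, |u - (c + κ * (⌊ef α β γ m⌋₊ : ℕ))| ≤ R →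
      (X : ℤ) < ((primorial z * h : ℕ) : ℤ) * u →
      (1 - ε) * (S.card / (Vz z * Real.log N)) ≤
        ((S.filter (fun s => (((primorial z * h : ℕ) : ℤ) * u - (s : ℕ)).toNat.Prime)).card : ℝ)) ⊆
      (Icc (-(R : ℤ)) R).biUnion fun i => (Ioc (y - w) y).filter (fun m : ℕ => Bad i ⌊ef α β γ m⌋₊) := by
    intro m hm
    obtain ⟨hm1, hm2⟩ := mem_filter.1 hm
    push Not at hm2
    obtain ⟨u, g3, g4, g5⟩ := hm2
    rw [mem_biUnion]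
    refine ⟨u - (c + κ * (⌊ef α β γ m⌋₊ : ℕ)), mem_Icc.2 (abs_le.1 g3), mem_filter.2 ⟨hm1, ?_⟩⟩
    rw [hBad]
    have e1 : c + (u - (c + κ * (⌊ef α β γ m⌋₊ : ℕ))) + κ * (⌊ef α β γ m⌋₊ : ℕ) = u := by ring
    rw [e1]
    refine ⟨g4, lt_of_lt_of_le g5 ?_⟩
    have hV := Vz_pos z
    have hlogN : 0 < Real.log (N : ℝ) := by linarith
    have hk0 : (0 : ℝ) < k := lt_of_lt_of_le hlogN s3
    have hlog2 : 0 < Real.log 2 := Real.log_pos (by norm_num)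
    have hkl : 0 < (k : ℝ) * Real.log 2 := by positivity
    have g6 : (1 - ε) / Real.log N ≤ (1 - ε') / (k * Real.log 2) := by
      rw [div_le_div_iff₀ hlogN hkl]
      refine s6.trans (mul_le_mul_of_nonneg_right (by linarith) hlogN.le)
    calc (1 - ε) * (S.card / (Vz z * Real.log N)) = (S.card / Vz z) * ((1 - ε) / Real.log N) := by field_simp
      _ ≤ (S.card / Vz z) * ((1 - ε') / (k * Real.log 2)) := mul_le_mul_of_nonneg_left g6 (by positivity)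
      _ = _ := by field_simp
  calc _ ≤ (((Icc (-(R : ℤ)) R).biUnion fun i => (Ioc (y - w) y).filter (fun m : ℕ => Bad i ⌊ef α β γ m⌋₊)).card : ℝ) :=
        Nat.cast_le.2 (card_le_card hsub)
    _ ≤ ∑ i ∈ Icc (-(R : ℤ)) R, (((Ioc (y - w) y).filter (fun m : ℕ => Bad i ⌊ef α β γ m⌋₊)).card : ℝ) := by
        exact_mod_cast card_biUnion_le
    _ ≤ ∑ _i ∈ Icc (-(R : ℤ)) R, ε' * w := sum_le_sum hone
    _ = (2 * R + 1) * ε' * w := by
        rw [sum_const, nsmul_eq_mul, Int.card_Icc]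
        have : ((R : ℤ) + 1 - (-(R : ℤ))).toNat = 2 * R + 1 := by omega
        rw [this]
        push_cast
        ring
    _ = ε / 2 * w := by
        rw [hε']
        field_simp
    _ ≤ ε * w := mul_le_mul_of_nonneg_right (by linarith) hw0.le

end Pool.Agent.U710.XP
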